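import Pool.Agent.ElemSeq.Defs

/-! Closed finite sets and elementary sequences; Fibonacci runs. -/

namespace Pool.Agent.ElemSeq

/-- A finite set of positive integers containing `1` in which every element larger than `2` is a sum
of two distinct elements. -/
structure Closed (S : Finset ℕ) : Prop where
  one : 1 ∈ S
  pos : ∀ s ∈ S, 0 < s
  sum : ∀ s ∈ S, 2 < s → ∃ a ∈ S, ∃ b ∈ S, a < b ∧ s = a + b

theorem Closed.exists_elem {S : Finset ℕ} (hS : Closed S) {k : ℕ} (hk : k ∈ S) :
    ∃ x : Fin (S.card + 1) → ℕ, IsElementary (S.card + 1) x ∧ ∃ i, x i = k := by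
  classical
  set o := S.orderEmbOfFin rfl with ho
  refine ⟨Fin.cons 1 o, ⟨?_, ?_, ?_, ?_, ?_⟩, ?_⟩
  · have : 0 < S.card := Finset.card_pos.mpr ⟨1, hS.one⟩
    omega
  · intro i j hij
    induction i using Fin.cases with
    | zero =>
      induction j using Fin.cases with
      | zero => simp
      | succ j =>
        simp only [Fin.cons_zero, Fin.cons_succ]
        exact hS.pos _ (Finset.orderEmbOfFin_mem S rfl j)
    | succ i =>
      induction j using Fin.cases with
      | zero => exact absurd hij (by simp [Fin.le_def])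
      | succ j =>
        simp only [Fin.cons_succ]
        exact o.monotone (Fin.succ_le_succ_iff.mp hij)
  · intro i
    induction i using Fin.cases with
    | zero => simp
    | succ i =>
      simp only [Fin.cons_succ]
      exact hS.pos _ (Finset.orderEmbOfFin_mem S rfl i)
  · intro i hi
    induction i using Fin.cases with
    | zero => simp
    | succ i =>
      simp only [Fin.cons_succ]
      have hi0 : (i : ℕ) = 0 := by
        simp only [Fin.val_succ] at hi; omega
      -- the least element is 1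
      have h1 : ∃ j : Fin S.card, o j = 1 := by
        have : (1 : ℕ) ∈ Set.range o := by
          rw [ho, Finset.range_orderEmbOfFin]; exact hS.one
        exact this
      obtain ⟨j, hj⟩ := h1
      have hle : o i ≤ o j := o.monotone (by rw [Fin.le_def, hi0]; exact Nat.zero_le _)
      have hp : 0 < o i := hS.pos _ (Finset.orderEmbOfFin_mem S rfl i)
      omega
  · intro i hi
    have key : ∀ s ∈ S, ∃ j : Fin (S.card + 1), j ≠ 0 ∧ (Fin.cons 1 o : Fin (S.card + 1) → ℕ) j = s := by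
      intro s hs
      have : s ∈ Set.range o := by rw [ho, Finset.range_orderEmbOfFin]; exact hs
      obtain ⟨j, hj⟩ := this
      exact ⟨j.succ, Fin.succ_ne_zero j, by simpa using hj⟩
    induction i using Fin.cases with
    | zero => simp at hi
    | succ i =>
      simp only [Fin.cons_succ] at hi ⊢
      have hmem : o i ∈ S := Finset.orderEmbOfFin_mem S rfl i
      rcases Nat.lt_or_ge 2 (o i) with h2 | h2
      · obtain ⟨a, ha, b, hb, hab, hs⟩ := hS.sum _ hmem h2
        obtain ⟨j, hj0, hj⟩ := key a ha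
        obtain ⟨l, hl0, hl⟩ := key b hb
        refine ⟨j, l, ?_, by rw [hj, hl]; exact hs⟩
        rintro rfl
        rw [hj] at hl
        omega
      · obtain ⟨j, hj0, hj⟩ := key 1 hS.one
        refine ⟨0, j, hj0.symm, ?_⟩
        rw [hj]
        simp only [Fin.cons_zero]
        omega
  · have : k ∈ Set.range o := by rw [ho, Finset.range_orderEmbOfFin]; exact hk
    obtain ⟨j, hj⟩ := this
    exact ⟨j.succ, by simpa using hj⟩

theorem Closed.e_le {S : Finset ℕ} (hS : Closed S) {k : ℕ} (hk : k ∈ S) : e k ≤ S.card + 1 :=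
  Nat.sInf_le (hS.exists_elem hk)

theorem closed_Icc (G : ℕ) (hG : 1 ≤ G) : Closed (Finset.Icc 1 G) := by
  refine ⟨by simp [hG], ?_, ?_⟩
  · intro s hs; exact (Finset.mem_Icc.mp hs).1
  · intro s hs h2
    rw [Finset.mem_Icc] at hs
    refine ⟨1, by simp [hG], s - 1, by rw [Finset.mem_Icc]; omega, by omega, by omega⟩

theorem Closed.insert_add {S : Finset ℕ} (hS : Closed S) {a b : ℕ} (ha : a ∈ S) (hb : b ∈ S)
    (hab : a < b) : Closed (insert (a + b) S) := by
  refine ⟨Finset.mem_insert_of_mem hS.one, ?_, ?_⟩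
  · intro s hs
    rcases Finset.mem_insert.mp hs with rfl | hs
    · have := hS.pos a ha; omega
    · exact hS.pos s hs
  · intro s hs h2
    rcases Finset.mem_insert.mp hs with rfl | hs
    · exact ⟨a, Finset.mem_insert_of_mem ha, b, Finset.mem_insert_of_mem hb, hab, rfl⟩
    · obtain ⟨c, hc, d, hd, hcd, he⟩ := hS.sum s hs h2
      exact ⟨c, Finset.mem_insert_of_mem hc, d, Finset.mem_insert_of_mem hd, hcd, he⟩

/-- A run of `L` Fibonacci steps. -/
theorem run (L : ℕ) : ∀ (S : Finset ℕ), Closed S → ∀ u ∈ S, ∀ v ∈ S, u < v →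
    ∃ T : Finset ℕ, S ⊆ T ∧ Closed T ∧ T.card ≤ S.card + L ∧
      Nat.fib L * u + Nat.fib (L + 1) * v ∈ T := by
  induction L with
  | zero =>
    intro S hS u _ v hv _
    exact ⟨S, Finset.Subset.refl _, hS, by simp, by simpa using hv⟩
  | succ L ih =>
    intro S hS u hu v hv huv
    have hS' := hS.insert_add hu hv huv
    have hup := hS.pos u hu
    obtain ⟨T, hT1, hT2, hT3, hT4⟩ := ih _ hS' v (Finset.mem_insert_of_mem hv) (u + v)
      (Finset.mem_insert_self _ _) (by omega)
    refine ⟨T, (Finset.subset_insert _ _).trans hT1, hT2, ?_, ?_⟩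
    · have := Finset.card_insert_le (u + v) S
      omega
    · have h : Nat.fib (L + 1) * u + Nat.fib (L + 1 + 1) * v
          = Nat.fib L * v + Nat.fib (L + 1) * (u + v) := by
        rw [Nat.fib_add_two]; ring
      rw [h]; exact hT4

/-- A block: add a small element, then run. -/
theorem block (L : ℕ) (S : Finset ℕ) (hS : Closed S) (q : ℕ) (hq : q ∈ S) (a : ℕ) (ha : a ∈ S)
    (haq : a < q) :
    ∃ T : Finset ℕ, S ⊆ T ∧ Closed T ∧ T.card ≤ S.card + (L + 1) ∧
      Nat.fib (L + 2) * q + Nat.fib (L + 1) * a ∈ T := by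
  have hS' := hS.insert_add ha hq haq
  have hap := hS.pos a ha
  obtain ⟨T, hT1, hT2, hT3, hT4⟩ := run L _ hS' q (Finset.mem_insert_of_mem hq) (a + q)
      (Finset.mem_insert_self _ _) (by omega)
  refine ⟨T, (Finset.subset_insert _ _).trans hT1, hT2, ?_, ?_⟩
  · have := Finset.card_insert_le (a + q) S
    omega
  · have h : Nat.fib (L + 2) * q + Nat.fib (L + 1) * a
        = Nat.fib L * q + Nat.fib (L + 1) * (a + q) := by
      rw [Nat.fib_add_two]; ring
    rw [h]; exact hT4

/-- Halving: every `k` is reached with `2 log₂ k` new elements. -/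
theorem halving (S : Finset ℕ) (hS : Closed S) (h6 : Finset.Icc 1 6 ⊆ S) :
    ∀ k, 1 ≤ k → ∃ T : Finset ℕ, S ⊆ T ∧ Closed T ∧ T.card ≤ S.card + 2 * Nat.log 2 k ∧ k ∈ T := by
  intro k
  induction k using Nat.strong_induction_on with
  | _ k ih =>
    intro hk
    rcases Nat.lt_or_ge 6 k with h | h
    · -- k = 2 q + a
      obtain ⟨a, q, hk2, ha1, ha2⟩ : ∃ a q, k = 2 * q + a ∧ 1 ≤ a ∧ a ≤ 2 :=
        ⟨if k % 2 = 0 then 2 else 1, (k - 1) / 2, by split_ifs <;> omega, by split_ifs <;> omega,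
          by split_ifs <;> omega⟩
      obtain ⟨T, hT1, hT2, hT3, hT4⟩ := ih q (by omega) (by omega)
      have haT : a ∈ T := hT1 (h6 (by rw [Finset.mem_Icc]; omega))
      obtain ⟨U, hU1, hU2, hU3, hU4⟩ := block 1 T hT2 q hT4 a haT (by omega)
      refine ⟨U, hT1.trans hU1, hU2, ?_, ?_⟩
      · have hlog : Nat.log 2 q + 1 ≤ Nat.log 2 k := by
          have h1 : Nat.log 2 (q * 2) = Nat.log 2 q + 1 := Nat.log_mul_base (by norm_num) (by omega)
          rw [← h1]
          exact Nat.log_mono_right (by omega)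
        omega
      · have h3 : Nat.fib (1 + 2) * q + Nat.fib (1 + 1) * a = k := by
          have : Nat.fib 3 = 2 := by decide
          have h2 : Nat.fib 2 = 1 := by decide
          simp only [Nat.reduceAdd, this, h2]
          omega
        rw [h3] at hU4; exact hU4
    · exact ⟨S, Finset.Subset.refl _, hS, by omega, h6 (by rw [Finset.mem_Icc]; omega)⟩

/-- Solving `k = G q + H a` with `1 ≤ a ≤ G`. -/
theorem digit (G H k : ℕ) (hG : 0 < G) (hco : Nat.Coprime H G) (hk : G * H < k) :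
    ∃ a q, 1 ≤ a ∧ a ≤ G ∧ k = G * q + H * a := by
  have : NeZero G := ⟨hG.ne'⟩
  set z : ZMod G := (H : ZMod G)⁻¹ * (k : ZMod G) with hz
  have hHz : (H : ZMod G) * z = (k : ZMod G) := by
    rw [hz, ← mul_assoc, ZMod.coe_mul_inv_eq_one H hco, one_mul]
  obtain ⟨a, ha1, ha2, haz⟩ : ∃ a : ℕ, 1 ≤ a ∧ a ≤ G ∧ ((a : ℕ) : ZMod G) = z := by
    rcases Nat.eq_zero_or_pos z.val with h | h
    · refine ⟨G, hG, le_refl _, ?_⟩
      have : z = 0 := (ZMod.val_eq_zero z).mp h
      rw [this]; simp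
    · exact ⟨z.val, h, (ZMod.val_lt z).le, ZMod.natCast_zmod_val z⟩
  have hle : H * a ≤ k := by nlinarith
  have hmod : ((H * a : ℕ) : ZMod G) = ((k : ℕ) : ZMod G) := by
    push_cast; rw [haz, hHz]
  have hdvd : G ∣ k - H * a := by
    rw [ZMod.natCast_eq_natCast_iff] at hmod
    exact (Nat.modEq_iff_dvd' hle).mp hmod
  obtain ⟨q, hq⟩ := hdvd
  exact ⟨a, q, ha1, ha2, by omega⟩

/-- The main recursion. -/
theorem main_rec (L : ℕ) (hL : 4 ≤ L) (t : ℕ) :
    ∀ k, 1 ≤ k → k ≤ 2 * Nat.fib (L + 2) ^ 2 * Nat.fib (L + 2) ^ t →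
    ∃ T : Finset ℕ, Finset.Icc 1 (Nat.fib (L + 2)) ⊆ T ∧ Closed T ∧
      T.card ≤ Nat.fib (L + 2) + 2 * Nat.log 2 (2 * Nat.fib (L + 2) ^ 2) + t * (L + 1) ∧ k ∈ T := by
  have hG8 : 8 ≤ Nat.fib (L + 2) := by
    have : Nat.fib 6 ≤ Nat.fib (L + 2) := Nat.fib_mono (by omega)
    have h6 : Nat.fib 6 = 8 := by decide
    omega
  induction t with
  | zero =>
    intro k hk1 hk2
    obtain ⟨T, hT1, hT2, hT3, hT4⟩ := halving _ (closed_Icc (Nat.fib (L + 2)) (by omega))
      (Finset.Icc_subset_Icc_right (by omega)) k hk1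
    refine ⟨T, hT1, hT2, ?_, hT4⟩
    have h1 : Nat.log 2 k ≤ Nat.log 2 (2 * Nat.fib (L + 2) ^ 2) :=
      Nat.log_mono_right (by simpa using hk2)
    simp only [Nat.card_Icc, Nat.add_sub_cancel] at hT3
    omega
  | succ t ih =>
    intro k hk1 hk2
    rcases le_or_gt k (2 * Nat.fib (L + 2) ^ 2 * Nat.fib (L + 2) ^ t) with h | h
    · obtain ⟨T, hT1, hT2, hT3, hT4⟩ := ih k hk1 h
      refine ⟨T, hT1, hT2, hT3.trans ?_, hT4⟩
      have : t * (L + 1) ≤ (t + 1) * (L + 1) := Nat.mul_le_mul_right _ (Nat.le_succ t)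
      omega
    · set G := Nat.fib (L + 2) with hG
      set H := Nat.fib (L + 1) with hH
      have hHG : H ≤ G := Nat.fib_mono (by omega)
      have hco : Nat.Coprime H G := Nat.fib_coprime_fib_succ (L + 1)
      have hGt : 1 ≤ G ^ t := Nat.one_le_pow _ _ (by omega)
      have hk3 : 2 * G ^ 2 < k := lt_of_le_of_lt (Nat.le_mul_of_pos_right _ hGt) h
      have hk4 : G * H < k := by nlinarith
      obtain ⟨a, q, ha1, ha2, hkq⟩ := digit G H k (by omega) hco hk4
      have hqG : G < q := by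
        by_contra hcon
        push Not at hcon
        have h1 : G * q ≤ G * G := Nat.mul_le_mul_left _ hcon
        have h2 : H * a ≤ G * G := Nat.mul_le_mul hHG ha2
        nlinarith
      have hq2 : q ≤ 2 * G ^ 2 * G ^ t := by
        have h1 : G * q ≤ G * (2 * G ^ 2 * G ^ t) := by
          have : G * (2 * G ^ 2 * G ^ t) = 2 * G ^ 2 * G ^ (t + 1) := by ring
          rw [this]; omega
        exact Nat.le_of_mul_le_mul_left h1 (by omega)
      obtain ⟨T, hT1, hT2, hT3, hT4⟩ := ih q (by omega) hq2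
      have haT : a ∈ T := hT1 (by rw [Finset.mem_Icc]; omega)
      obtain ⟨U, hU1, hU2, hU3, hU4⟩ := block L T hT2 q hT4 a haT (by omega)
      refine ⟨U, hT1.trans hU1, hU2, ?_, ?_⟩
      · have : (t + 1) * (L + 1) = t * (L + 1) + (L + 1) := by ring
        omega
      · rw [← hG, ← hH, ← hkq] at hU4; exact hU4

/-- The upper bound with parameters. -/
theorem e_le_param (L : ℕ) (hL : 4 ≤ L) (t k : ℕ) (hk1 : 1 ≤ k)
    (hk : k ≤ 2 * Nat.fib (L + 2) ^ 2 * Nat.fib (L + 2) ^ t) :
    e k ≤ Nat.fib (L + 2) + 2 * Nat.log 2 (2 * Nat.fib (L + 2) ^ 2) + t * (L + 1) + 1 := by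
  obtain ⟨T, _, hT2, hT3, hT4⟩ := main_rec L hL t k hk1 hk
  exact (hT2.e_le hT4).trans (by omega)

end Pool.Agent.ElemSeq
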