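import Mathlib

/-! Definitions for MP_2a6a08_co: elementary sequences and the function `e`. -/

namespace Pool.Agent.ElemSeq

/-- `x` is an elementary sequence of length `n`: a nondecreasing sequence of positive integers
`x 0, …, x (n-1)`, with `n ≥ 2`, the first two terms equal to `1`, in which every term larger than
`1` is the sum of two terms with different indices. -/
structure IsElementary (n : ℕ) (x : Fin n → ℕ) : Prop where
  two_le : 2 ≤ n
  mono : Monotone x
  pos : ∀ i, 0 < x i
  start : ∀ i : Fin n, (i : ℕ) < 2 → x i = 1
  step : ∀ i, 1 < x i → ∃ j k, j ≠ k ∧ x i = x j + x k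

/-- `e k` is the least length of an elementary sequence containing `k`. -/
noncomputable def e (k : ℕ) : ℕ :=
  sInf {n | ∃ x : Fin n → ℕ, IsElementary n x ∧ ∃ i, x i = k}

end Pool.Agent.ElemSeq
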