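import Mathlib

/-! Numerical facts on the golden ratio and the Fibonacci numbers. -/

namespace Pool.Agent.ElemSeq

open Real
open scoped goldenRatio

theorem phi_lo : (1.618033 : ℝ) < φ := by
  have h : (2.236067 : ℝ) < √5 := Real.lt_sqrt_of_sq_lt (by norm_num)
  unfold goldenRatio; linarith

theorem phi_hi : φ < (1.618034 : ℝ) := by
  have h : √5 < (2.236068 : ℝ) := (Real.sqrt_lt' (by norm_num)).mpr (by norm_num)
  unfold goldenRatio; linarith

theorem log_phi_hi : Real.log φ < 0.4813 := by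
  have h : φ < Real.exp 0.4813 := by
    have h1 := Real.sum_le_exp_of_nonneg (x := 0.4813) (by norm_num) 7
    have h2 := phi_hi
    refine lt_of_lt_of_le h2 (le_trans ?_ h1)
    simp only [Finset.sum_range_succ, Finset.sum_range_zero, Nat.factorial]
    norm_num
  calc Real.log φ < Real.log (Real.exp 0.4813) := Real.log_lt_log Real.goldenRatio_pos h
    _ = 0.4813 := Real.log_exp _

theorem log_phi_lo : 0.481 < Real.log φ := by
  have h : Real.exp 0.481 < φ := by
    have h1 := Real.exp_bound' (x := 0.481) (by norm_num) (by norm_num) (n := 8) (by norm_num)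
    have h2 := phi_lo
    refine lt_of_le_of_lt h1 (lt_trans ?_ h2)
    simp only [Finset.sum_range_succ, Finset.sum_range_zero, Nat.factorial]
    norm_num
  calc 0.481 = Real.log (Real.exp 0.481) := (Real.log_exp _).symm
    _ < Real.log φ := Real.log_lt_log (Real.exp_pos _) h

theorem fib_succ_le (n : ℕ) : (Nat.fib (n + 1) : ℝ) ≤ φ ^ n := by
  induction n using Nat.twoStepInduction with
  | zero => simp
  | one => simp; exact Real.one_lt_goldenRatio.le
  | more n h1 h2 =>
    have h3 : Nat.fib (n + 2 + 1) = Nat.fib (n + 1) + Nat.fib (n + 1 + 1) := by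
      rw [Nat.fib_add_two]
    rw [h3]
    push_cast
    have h4 : φ ^ (n + 2) = φ ^ n + φ ^ (n + 1) := by
      have := Real.goldenRatio_sq
      calc φ ^ (n + 2) = φ ^ n * φ ^ 2 := by ring
        _ = φ ^ n + φ ^ (n + 1) := by rw [this]; ring
    rw [h4]; exact add_le_add h1 h2

theorem le_fib_add_two (n : ℕ) : φ ^ n ≤ (Nat.fib (n + 2) : ℝ) := by
  induction n using Nat.twoStepInduction with
  | zero => simp
  | one =>
    have h : Nat.fib (1 + 2) = 2 := by decide
    rw [h]; simp; exact Real.goldenRatio_lt_two.le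
  | more n h1 h2 =>
    have h3 : Nat.fib (n + 2 + 2) = Nat.fib (n + 2) + Nat.fib (n + 1 + 2) := by
      rw [Nat.fib_add_two]
    rw [h3]
    push_cast
    have h4 : φ ^ (n + 2) = φ ^ n + φ ^ (n + 1) := by
      have := Real.goldenRatio_sq
      calc φ ^ (n + 2) = φ ^ n * φ ^ 2 := by ring
        _ = φ ^ n + φ ^ (n + 1) := by rw [this]; ring
    rw [h4]; exact add_le_add h1 h2

theorem log_fib_lo (m : ℕ) (hm : 15 ≤ m) :
    ((m : ℝ) - 1.675) * Real.log φ ≤ Real.log (Nat.fib m : ℝ) := by
  have hφ := Real.goldenRatio_pos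
  have hs : (0 : ℝ) < √5 := Real.sqrt_pos.mpr (by norm_num)
  have hpow : (1000 : ℝ) ≤ φ ^ m := by
    calc (1000 : ℝ) ≤ (1.618033 : ℝ) ^ 15 := by norm_num
      _ ≤ φ ^ 15 := pow_le_pow_left₀ (by norm_num) phi_lo.le _
      _ ≤ φ ^ m := pow_le_pow_right₀ Real.one_lt_goldenRatio.le hm
  have hψ : Real.goldenConj ^ m ≤ 1 := by
    have h1 : |Real.goldenConj ^ m| ≤ 1 := by
      rw [abs_pow]
      apply pow_le_one₀ (abs_nonneg _)
      rw [abs_of_neg Real.goldenConj_neg]
      linarith [Real.neg_one_lt_goldenConj]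
    exact (abs_le.mp h1).2
  have hfib : 0.999 * φ ^ m / √5 ≤ (Nat.fib m : ℝ) := by
    rw [Real.coe_fib_eq]
    apply div_le_div_of_nonneg_right _ hs.le
    linarith
  have hc : Real.log (√5 / 0.999) ≤ 1.675 * Real.log φ := by
    have h1 : (√5 / 0.999) ^ 40 ≤ φ ^ 67 := by
      have h2 : (√5) ^ 40 = 5 ^ 20 := by
        calc (√5) ^ 40 = ((√5) ^ 2) ^ 20 := by ring
          _ = 5 ^ 20 := by rw [Real.sq_sqrt (by norm_num)]
      calc (√5 / 0.999) ^ 40 = 5 ^ 20 / 0.999 ^ 40 := by rw [div_pow, h2]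
        _ ≤ (1.618033 : ℝ) ^ 67 := by norm_num
        _ ≤ φ ^ 67 := pow_le_pow_left₀ (by norm_num) phi_lo.le _
    have h3 := Real.log_le_log (by positivity) h1
    rw [Real.log_pow, Real.log_pow] at h3
    push_cast at h3
    linarith
  have h5 : Real.log (0.999 * φ ^ m / √5) = m * Real.log φ - Real.log (√5 / 0.999) := by
    have h6 : 0.999 * φ ^ m / √5 = φ ^ m / (√5 / 0.999) := by
      field_simp
    rw [h6, Real.log_div (by positivity) (by positivity), Real.log_pow]
  have h7 := Real.log_le_log (by positivity) hfib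
  rw [h5] at h7
  linarith

end Pool.Agent.ElemSeq
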