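import Pool.Agent.ElemSeq.SharpUpper

/-! The sharp upper bound. -/

namespace Pool.Agent.ElemSeq

open Real Filter
open scoped goldenRatio

theorem cstar_pos : 0 < Real.log (φ ^ 2 / 2) := by
  rw [cstar_eq]
  have := log_phi_lo
  have := Real.log_two_lt_d9
  linarith

theorem cstar_lt : Real.log (φ ^ 2 / 2) < 0.27 := by
  rw [cstar_eq]
  have := log_phi_hi
  have := Real.log_two_gt_d9
  linarith

theorem sq_small (b c : ℝ) (hb : 0 < b) (hc : 0 < c) :
    ∀ᶠ x : ℝ in atTop, x ^ 2 ≤ c * Real.exp (b * x) := by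
  have h := (isLittleO_pow_exp_pos_mul_atTop (k := 2) hb).bound hc
  filter_upwards [h] with x hx
  simp only [Real.norm_eq_abs, Real.abs_exp, abs_of_nonneg (sq_nonneg x)] at hx
  exact hx

theorem sharp_upper (ε : ℝ) (hε : 0 < ε) : ∀ᶠ n : ℕ in atTop, ∀ k : ℕ,
    Nat.fib n < k → k < Nat.fib (n + 1) →
    (e k : ℝ) ≤ n + (Real.log (φ ^ 2 / 2) + ε) * (n / Real.log n) := by
  set c := Real.log (φ ^ 2 / 2) with hc
  have hc0 : 0 < c := cstar_pos
  have hc1 : c < 0.27 := cstar_lt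
  set δ : ℝ := min (1 / 4) (ε / 4) with hδ
  have hδ0 : 0 < δ := lt_min (by norm_num) (by linarith)
  have hδ1 : δ ≤ 1 / 4 := min_le_left _ _
  have hδ2 : δ ≤ ε / 4 := min_le_right _ _
  set g := Real.log 2 with hg
  have hg1 : 0.69 < g := by have := Real.log_two_gt_d9; linarith
  have hg2 : g < 0.7 := by have := Real.log_two_lt_d9; linarith
  have hlog : Tendsto (fun n : ℕ => Real.log (n : ℝ)) atTop atTop :=
    Real.tendsto_log_atTop.comp tendsto_natCast_atTop_atTop
  filter_upwards [hlog.eventually (sq_small δ (ε / 20) hδ0 (by linarith)),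
    hlog.eventually (sq_small 1 (1 / 400) one_pos (by norm_num)),
    hlog.eventually_ge_atTop 30, hlog.eventually_ge_atTop (2 / δ),
    eventually_ge_atTop 1] with n h1 h2 h3 h4 hn k hk1 hk2
  set x := Real.log (n : ℝ) with hx
  have hn0 : (0 : ℝ) < n := by exact_mod_cast hn
  have hexp : Real.exp x = n := Real.exp_log hn0
  have hx0 : 0 < x := by linarith
  have hδx : 2 ≤ δ * x := by
    rw [div_le_iff₀ hδ0] at h4
    linarith
  set R := ⌊(1 - δ) * x / g⌋₊ with hR
  have hg0 : 0 < g := by linarith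
  have hRle : (R : ℝ) ≤ (1 - δ) * x / g := Nat.floor_le (by
    apply div_nonneg (mul_nonneg (by linarith) hx0.le) hg0.le)
  have hRge : (1 - δ) * x / g < R + 1 := Nat.lt_floor_add_one _
  have hRg : (R : ℝ) * g ≤ (1 - δ) * x := by rwa [le_div_iff₀ hg0] at hRle
  have hRg2 : (1 - δ) * x < (R + 1) * g := by rwa [div_lt_iff₀ hg0] at hRge
  have hR15 : 15 ≤ R := by
    have : (15 : ℝ) ≤ R := by nlinarith
    exact_mod_cast this
  have hR2x : (R : ℝ) ≤ 2 * x := by nlinarith
  have hRn : 100 * R ^ 2 ≤ n := by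
    have : (100 : ℝ) * (R : ℝ) ^ 2 ≤ n := by
      rw [one_mul] at h2
      rw [hexp] at h2
      have h5 : (R : ℝ) ^ 2 ≤ (2 * x) ^ 2 := pow_le_pow_left₀ (Nat.cast_nonneg R) hR2x 2
      nlinarith
    exact_mod_cast this
  have hmain := sharp_param n R k hR15 hRn hk1 hk2
  rw [← hc, ← hg] at hmain
  have hR1g : (1 - 2 * δ) * x ≤ ((R : ℝ) - 1) * g := by
    have : ((R : ℝ) - 1) * g = (R + 1) * g - 2 * g := by ring
    rw [this]; nlinarith
  have h12 : 0 < (1 - 2 * δ) := by linarith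
  have hterm1 : c * n / (((R : ℝ) - 1) * g) ≤ (c + ε / 2) * (n / x) := by
    calc c * n / (((R : ℝ) - 1) * g) ≤ c * n / ((1 - 2 * δ) * x) :=
          div_le_div_of_nonneg_left (by positivity) (by positivity) hR1g
      _ = (c / (1 - 2 * δ)) * (n / x) := by field_simp
      _ ≤ (c + ε / 2) * (n / x) := by
          apply mul_le_mul_of_nonneg_right _ (by positivity)
          rw [div_le_iff₀ h12]
          nlinarith
  have hterm2 : (R : ℝ) + 4 + R * 2 ^ (R + 1) ≤ (ε / 2) * (n / x) := by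
    have hpow : (2 : ℝ) ^ (R + 1) ≤ 2 * Real.exp ((1 - δ) * x) := by
      rw [pow_succ]
      have : (2 : ℝ) ^ R = Real.exp (R * g) := by
        rw [hg, Real.exp_nat_mul, Real.exp_log (by norm_num)]
      rw [this, mul_comm]
      apply mul_le_mul_of_nonneg_left _ (by norm_num)
      exact Real.exp_le_exp.mpr hRg
    rw [← mul_div_assoc, le_div_iff₀ hx0, ← hexp]
    have hE : Real.exp ((1 - δ) * x) * Real.exp (δ * x) = Real.exp x := by
      rw [← Real.exp_add]; congr 1; ring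
    have hE1 : Real.exp (δ * x) ≤ Real.exp x := Real.exp_le_exp.mpr (by nlinarith)
    have hEp := Real.exp_pos ((1 - δ) * x)
    have h5 : (R : ℝ) * 2 ^ (R + 1) ≤ 2 * x * (2 * Real.exp ((1 - δ) * x)) :=
      mul_le_mul hR2x hpow (by positivity) (by positivity)
    have h6 : x ^ 2 * Real.exp ((1 - δ) * x) ≤ (ε / 20) * Real.exp x := by
      calc x ^ 2 * Real.exp ((1 - δ) * x) ≤ (ε / 20 * Real.exp (δ * x)) * Real.exp ((1 - δ) * x) :=
            mul_le_mul_of_nonneg_right h1 hEp.le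
        _ = (ε / 20) * (Real.exp ((1 - δ) * x) * Real.exp (δ * x)) := by ring
        _ = (ε / 20) * Real.exp x := by rw [hE]
    have h7 : x ^ 2 ≤ (ε / 20) * Real.exp x :=
      h1.trans (mul_le_mul_of_nonneg_left hE1 (by linarith))
    calc ((R : ℝ) + 4 + R * 2 ^ (R + 1)) * x
        ≤ (2 * x + 4 + 2 * x * (2 * Real.exp ((1 - δ) * x))) * x := by
          apply mul_le_mul_of_nonneg_right _ hx0.le
          linarith
      _ = 2 * x ^ 2 + 4 * x + 4 * (x ^ 2 * Real.exp ((1 - δ) * x)) := by ring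
      _ ≤ ε / 2 * Real.exp x := by nlinarith
  have : (c + ε) * ((n : ℝ) / x) = (c + ε / 2) * (n / x) + (ε / 2) * (n / x) := by ring
  rw [this]
  linarith

end Pool.Agent.ElemSeq
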