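import Pool.Agent.ElemSeq.LowerCode
import Pool.Agent.ElemSeq.SharpUpperAsym

/-! Asymptotics of the sharp lower bound. -/

namespace Pool.Agent.ElemSeq

open Real Filter Finset
open scoped goldenRatio

theorem log_small (c : ℝ) (hc : 0 < c) : ∀ᶠ x : ℝ in atTop, Real.log x ≤ c * x := by
  have h := Real.isLittleO_log_id_atTop.bound hc
  filter_upwards [h, eventually_ge_atTop 1] with x hx hx1
  simp only [Real.norm_eq_abs, id] at hx
  rw [abs_of_nonneg (Real.log_nonneg hx1), abs_of_nonneg (by linarith)] at hx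
  exact hx

theorem lin_small (c : ℝ) (hc : 0 < c) : ∀ᶠ x : ℝ in atTop, x ≤ c * Real.exp x := by
  have h := (isLittleO_pow_exp_pos_mul_atTop (k := 1) (b := 1) (by norm_num)).bound hc
  filter_upwards [h, eventually_ge_atTop 0] with x hx hx0
  simp only [pow_one, Real.norm_eq_abs, abs_of_nonneg hx0, Real.abs_exp, one_mul] at hx
  exact hx

/-- The counting bound in exponential form. -/
theorem count_exp (K n M s1 s2 : ℕ) (x a y S1 S2 : ℝ) (hn : 15 ≤ n) (hx1 : 1 ≤ x)
    (hexp : Real.exp x = n) (ha : a = n / x) (hy : y = Real.log x)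
    (hnM : n ≤ M) (hM2 : (M : ℝ) ≤ 2 * n) (hs1r : (s1 : ℝ) ≤ S1) (hs2r : (s2 : ℝ) ≤ S2)
    (hs1 : ∀ m x, m ≤ M → Sq m x → Nat.fib n ≤ x (m - 1) →
      ((Ico 1 (m - 1)).filter (Far K x)).card ≤ s1) (hs2 : 2 + 42 * (M + 1 - n) ≤ s2) :
    ((((Ioo (Nat.fib n) (Nat.fib (n + 1))).filter (fun k => e k ≤ M)).card : ℕ) : ℝ) ≤
      Real.exp ((x + 2) + ((2 * a / x + 2 * y * S1) + ((2 * a / x + (2 * y + (x + 1)) * S1) +
        (2 * a / x * ((K + 1) * (K + 1)) + 2 * y * S2)))) := by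
  have hx0 : 0 < x := by linarith
  have hn0 : (0 : ℝ) < n := by rw [← hexp]; exact Real.exp_pos x
  have ha0 : 0 < a := by rw [ha]; positivity
  have hy0 : 0 ≤ y := by rw [hy]; exact Real.log_nonneg (by linarith)
  have hexpy : Real.exp y = x := by rw [hy]; exact Real.exp_log hx0
  have hM0 : (0 : ℝ) < M := by
    have : 0 < M := by omega
    exact_mod_cast this
  have hcount := count_bound K n M s1 s2 (by omega) hs1 hs2
  have hu0 : 0 < 1 / x ^ 2 := by positivity
  have hu1 : 1 / x ^ 2 ≤ 1 := by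
    rw [div_le_one (by positivity)]; nlinarith
  have hpw : ∀ s : ℕ, ∀ S : ℝ, (s : ℝ) ≤ S → (1 / (1 / x ^ 2)) ^ s ≤ Real.exp (2 * y * S) := by
    intro s S hsS
    have h1 : 1 / (1 / x ^ 2) = Real.exp (2 * y) := by
      rw [one_div_one_div, show 2 * y = ((2 : ℕ) : ℝ) * y by push_cast; ring, Real.exp_nat_mul,
        hexpy]
    rw [h1, ← Real.exp_nat_mul]
    apply Real.exp_le_exp.mpr
    nlinarith
  have huM : 1 / x ^ 2 * M ≤ 2 * a / x := by
    have h1 : 2 * a / x = 1 / x ^ 2 * (2 * n) := by rw [ha]; field_simp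
    rw [h1]
    exact mul_le_mul_of_nonneg_left hM2 hu0.le
  have hc1 : ((sub (range M) s1).card : ℝ) ≤ Real.exp (2 * a / x + 2 * y * S1) := by
    have h1 := card_sub_le (range M) s1 (1 / x ^ 2) hu0 hu1
    rw [Finset.card_range] at h1
    rw [Real.exp_add]
    refine h1.trans ?_
    exact mul_le_mul (Real.exp_le_exp.mpr huM) (hpw s1 _ hs1r) (by positivity) (Real.exp_pos _).le
  have hc2 : ((sub (range M ×ˢ range M) s1).card : ℝ) ≤
      Real.exp (2 * a / x + (2 * y + (x + 1)) * S1) := by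
    have hv0 : 0 < 1 / x ^ 2 / M := by positivity
    have hM1 : (1 : ℝ) ≤ M := by
      have : 1 ≤ M := by omega
      exact_mod_cast this
    have hv1 : 1 / x ^ 2 / M ≤ 1 := (div_le_self hu0.le hM1).trans hu1
    have h1 := card_sub_le (range M ×ˢ range M) s1 (1 / x ^ 2 / M) hv0 hv1
    rw [Finset.card_product, Finset.card_range] at h1
    rw [Real.exp_add]
    refine h1.trans ?_
    have h2 : 1 / x ^ 2 / M * ((M * M : ℕ) : ℝ) ≤ 2 * a / x := by
      have : 1 / x ^ 2 / M * ((M * M : ℕ) : ℝ) = 1 / x ^ 2 * M := by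
        push_cast; field_simp
      rw [this]; exact huM
    have h3 : (1 / (1 / x ^ 2 / M)) ^ s1 ≤ Real.exp ((2 * y + (x + 1)) * S1) := by
      have h4 : 1 / (1 / x ^ 2 / M) ≤ Real.exp (2 * y + (x + 1)) := by
        have h5 : 1 / (1 / x ^ 2 / M) = x ^ 2 * M := by field_simp
        have h6 : Real.exp (2 * y + (x + 1)) = x ^ 2 * (n * Real.exp 1) := by
          rw [Real.exp_add, Real.exp_add, hexp]
          have : Real.exp (2 * y) = x ^ 2 := by
            rw [show 2 * y = ((2 : ℕ) : ℝ) * y by push_cast; ring, Real.exp_nat_mul, hexpy]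
          rw [this]
        rw [h5, h6]
        apply mul_le_mul_of_nonneg_left _ (by positivity)
        have h7 : (2 : ℝ) ≤ Real.exp 1 := by
          have := Real.add_one_le_exp (1 : ℝ); linarith
        nlinarith
      calc (1 / (1 / x ^ 2 / M)) ^ s1 ≤ (Real.exp (2 * y + (x + 1))) ^ s1 :=
            pow_le_pow_left₀ (by positivity) h4 _
        _ = Real.exp (s1 * (2 * y + (x + 1))) := by rw [← Real.exp_nat_mul]
        _ ≤ _ := by
            apply Real.exp_le_exp.mpr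
            rw [mul_comm]
            apply mul_le_mul_of_nonneg_left hs1r (by linarith)
    exact mul_le_mul (Real.exp_le_exp.mpr h2) h3 (by positivity) (Real.exp_pos _).le
  have hc3 : ((sub (range M ×ˢ (range (K + 1) ×ˢ range (K + 1))) s2).card : ℝ) ≤
      Real.exp (2 * a / x * ((K + 1) * (K + 1)) + 2 * y * S2) := by
    have h1 := card_sub_le (range M ×ˢ (range (K + 1) ×ˢ range (K + 1))) s2 (1 / x ^ 2) hu0 hu1
    rw [Finset.card_product, Finset.card_product, Finset.card_range, Finset.card_range] at h1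
    rw [Real.exp_add]
    refine h1.trans ?_
    have h2 : 1 / x ^ 2 * ((M * ((K + 1) * (K + 1)) : ℕ) : ℝ) ≤
        2 * a / x * ((K + 1) * (K + 1)) := by
      push_cast
      rw [← mul_assoc]
      exact mul_le_mul_of_nonneg_right huM (by positivity)
    exact mul_le_mul (Real.exp_le_exp.mpr h2) (hpw s2 _ hs2r) (by positivity) (Real.exp_pos _).le
  have hc0 : ((M + 1 : ℕ) : ℝ) ≤ Real.exp (x + 2) := by
    push_cast
    rw [Real.exp_add, hexp]
    have h7 : (3 : ℝ) ≤ Real.exp 2 := by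
      have := Real.add_one_le_exp (2 : ℝ); linarith
    have h8 : (1 : ℝ) ≤ n := by
      have : 1 ≤ n := by omega
      exact_mod_cast this
    nlinarith
  have h1 : ((((Ioo (Nat.fib n) (Nat.fib (n + 1))).filter (fun k => e k ≤ M)).card : ℕ) : ℝ) ≤
      ((M + 1 : ℕ) : ℝ) * (((sub (range M) s1).card : ℝ) *
        (((sub (range M ×ˢ range M) s1).card : ℝ) *
        ((sub (range M ×ˢ (range (K + 1) ×ˢ range (K + 1))) s2).card : ℝ))) := by
    exact_mod_cast hcount
  refine h1.trans ?_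
  rw [Real.exp_add (x + 2), Real.exp_add (2 * a / x + 2 * y * S1),
    Real.exp_add (2 * a / x + (2 * y + (x + 1)) * S1)]
  gcongr

theorem expo_aux (x a y n ℓ ε S1 S2 K2 : ℝ) (hx : 1 ≤ x) (ha : 0 < a) (hy : 0 ≤ y)
    (hax : a * x = n) (hS1 : S1 ≤ a + 3) (hS1x : S1 * x ≤ ℓ * (1 - 2 * ε) * n + 3 * x)
    (hS2 : S2 ≤ 44 + 12 * a) (hℓ : 0.481 < ℓ) (hℓ2 : ℓ < 0.4813) (hε : 0 < ε) (hK2 : 0 ≤ K2)
    (h1 : 2 * (2 + K2) + 28 * y + 1 ≤ 0.2 * ε * x) (h2 : 4 * x + 6 + 100 * y ≤ 0.2 * ε * n) :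
    (x + 2) + ((2 * a / x + 2 * y * S1) + ((2 * a / x + (2 * y + (x + 1)) * S1) +
        (2 * a / x * K2 + 2 * y * S2))) ≤ (1 - ε) * ((n - 1.675) * ℓ) := by
  have e1 : 2 * a / x ≤ 2 * a := div_le_self (by linarith) hx
  have e2 : 2 * a / x * K2 ≤ 2 * a * K2 := mul_le_mul_of_nonneg_right e1 hK2
  have e3 : y * S1 ≤ y * (a + 3) := mul_le_mul_of_nonneg_left hS1 hy
  have e4 : y * S2 ≤ y * (44 + 12 * a) := mul_le_mul_of_nonneg_left hS2 hy
  have e5 : a * (2 * (2 + K2) + 28 * y + 1) ≤ a * (0.2 * ε * x) := mul_le_mul_of_nonneg_left h1 ha.le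
  have e6 : a * (0.2 * ε * x) = 0.2 * ε * n := by rw [← hax]; ring
  have e7 : 0 < n := by rw [← hax]; positivity
  have e8 : 0.481 * (ε * n) ≤ ℓ * (ε * n) := mul_le_mul_of_nonneg_right hℓ.le (by positivity)
  have e9 : 0 < ε * n := by positivity
  have e10 : 0 < ε * ℓ := by positivity
  linarith

theorem quartic_aux (t : ℝ) (h : t ^ 2 = t + 1) : t ^ 2 / 2 * (t + 1) = t * (t + 1 / 2) := by
  linear_combination (t / 2) * h

theorem phi_quartic : φ ^ 2 / 2 * (φ + 1) = φ * (φ + 1 / 2) :=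
  quartic_aux _ Real.goldenRatio_sq

theorem kappa_aux (cs ε : ℝ) (hε : 0 < ε) (hcs1 : cs < 0.27) :
    (1 + ε / 2) * (cs - ε) ≤ (1 - 2 * ε) * (cs - ε / 4) := by
  have h1 : ε * cs ≤ ε * 0.27 := mul_le_mul_of_nonneg_left hcs1.le hε.le
  have h2 : 0 < ε * ε := mul_pos hε hε
  nlinarith

theorem sharp_lower (ε : ℝ) (hε : 0 < ε) (hε1 : ε ≤ 1 / 10) : ∀ᶠ n : ℕ in atTop,
    ((((Ioo (Nat.fib n) (Nat.fib (n + 1))).filter
      (fun k => (e k : ℝ) < n + (Real.log (φ ^ 2 / 2) - ε) * (n / Real.log n))).card : ℕ) : ℝ)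
      ≤ (Nat.fib n : ℝ) ^ (1 - ε) := by
  set cs := Real.log (φ ^ 2 / 2) with hcs
  have hcs1 : cs < 0.27 := cstar_lt
  set ℓ := Real.log φ with hℓ
  have hℓ1 : 0.481 < ℓ := log_phi_lo
  have hℓ2 : ℓ < 0.4813 := log_phi_hi
  have hcs0 : 0.2688 < cs := by
    rw [hcs, cstar_eq]
    have := Real.log_two_lt_d9
    linarith
  have hφ := Real.goldenRatio_pos
  have hφ1 := phi_lo
  have hφ2 := phi_hi
  have hsq := Real.goldenRatio_sq
  -- the threshold c
  set c := Real.exp (cs - ε / 4) with hc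
  have hlogc : Real.log c = cs - ε / 4 := Real.log_exp _
  have hc0 : 0 < c := Real.exp_pos _
  have hc1 : 1 < c := by
    rw [hc]; exact Real.one_lt_exp_iff.mpr (by linarith)
  have hccs : c < φ ^ 2 / 2 := by
    have h1 : Real.exp cs = φ ^ 2 / 2 := by rw [hcs]; exact Real.exp_log (by positivity)
    rw [← h1, hc]
    exact Real.exp_lt_exp.mpr (by linarith)
  have hc2 : c ≤ 1.3091 := by
    rw [hsq] at hccs
    linarith
  -- μ
  set μ := (φ * (φ + 1 / 2) - c * (φ + 1)) / (c * φ) with hμ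
  have hμ0 : 0 < μ := by
    rw [hμ]
    apply div_pos _ (by positivity)
    have h1 : c * (φ + 1) < φ ^ 2 / 2 * (φ + 1) := mul_lt_mul_of_pos_right hccs (by linarith)
    have h2 := phi_quartic
    linarith
  have hcμ : c * (φ + 1 + μ * φ) ≤ φ * (φ + 1 / 2) := by
    have h1 : c * (φ + 1 + μ * φ) = c * (φ + 1) + μ * (c * φ) := by ring
    have h2 : μ * (c * φ) = φ * (φ + 1 / 2) - c * (φ + 1) := by
      rw [hμ]; exact div_mul_cancel₀ _ (by positivity)
    rw [h1, h2]; linarith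
  obtain ⟨B, hB0⟩ := pow_unbounded_of_one_lt (1 / μ) (show (1 : ℝ) < 1.23 by norm_num)
  have hB : 1 / μ < 1.23 ^ (B + 1) :=
    lt_of_lt_of_le hB0 (pow_le_pow_right₀ (by norm_num) (Nat.le_succ B))
  -- H
  set H := ⌈2 / ε⌉₊ with hH
  have hH1 : 1 ≤ H := Nat.one_le_ceil_iff.mpr (by positivity)
  have hHr : (0 : ℝ) < H := by exact_mod_cast hH1
  have hHε : 1 / (H : ℝ) ≤ ε / 2 := by
    rw [div_le_div_iff₀ hHr (by norm_num)]
    have h1 := Nat.le_ceil (2 / ε)
    rw [div_le_iff₀ hε] at h1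
    rw [hH]; linarith
  set K := B + (B + 1) * H with hK
  set κ := (1 + 1 / (H : ℝ)) * (ℓ / Real.log c) with hκ
  have hlc0 : 0 < Real.log c := by rw [hlogc]; linarith
  have hH0 : 0 < 1 / (H : ℝ) := by positivity
  have hκ0 : 0 < κ := by rw [hκ]; positivity
  have hκ1 : κ * (cs - ε) ≤ ℓ * (1 - 2 * ε) := by
    have h1 : κ * (cs - ε) = ℓ * ((1 + 1 / (H : ℝ)) * (cs - ε)) / Real.log c := by rw [hκ]; ring
    rw [h1, div_le_iff₀ hlc0, hlogc]
    have h2 : (1 + 1 / (H : ℝ)) * (cs - ε) ≤ (1 + ε / 2) * (cs - ε) :=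
      mul_le_mul_of_nonneg_right (by linarith) (by linarith)
    have h3 := kappa_aux cs ε hε hcs1
    calc ℓ * ((1 + 1 / (H : ℝ)) * (cs - ε)) ≤ ℓ * ((1 - 2 * ε) * (cs - ε / 4)) :=
          mul_le_mul_of_nonneg_left (h2.trans h3) (by linarith)
      _ = ℓ * (1 - 2 * ε) * (cs - ε / 4) := by ring
  have hκ3 : κ ≤ 3 := by
    have h1 : ℓ / Real.log c ≤ 2 := by
      rw [div_le_iff₀ hlc0, hlogc]; linarith
    have h2 : 1 + 1 / (H : ℝ) ≤ 1.05 := by linarith
    have h3 : 0 < ℓ / Real.log c := by positivity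
    calc κ = (1 + 1 / (H : ℝ)) * (ℓ / Real.log c) := hκ
      _ ≤ 1.05 * 2 := mul_le_mul h2 h1 h3.le (by norm_num)
      _ ≤ 3 := by norm_num
  set K2 : ℝ := ((K : ℝ) + 1) * ((K : ℝ) + 1) with hK2
  have hK20 : 0 ≤ K2 := by positivity
  have hlog : Tendsto (fun n : ℕ => Real.log (n : ℝ)) atTop atTop :=
    Real.tendsto_log_atTop.comp tendsto_natCast_atTop_atTop
  filter_upwards [hlog.eventually (log_small (ε / 1000) (by linarith)),
    hlog.eventually (lin_small (0.2 * ε / 110) (by positivity)),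
    hlog.eventually_ge_atTop 10, hlog.eventually_ge_atTop (10 * (2 * (2 + K2) + 1) / ε),
    eventually_ge_atTop 15] with n hy hlin hx hxK hn
  set x := Real.log (n : ℝ) with hxdef
  have hn0 : (0 : ℝ) < n := by
    have : 0 < n := by omega
    exact_mod_cast this
  have hexp : Real.exp x = n := Real.exp_log hn0
  have hx0 : 0 < x := by linarith
  set a : ℝ := n / x with ha
  have ha0 : 0 < a := by positivity
  have hax : a * x = n := by rw [ha]; field_simp
  set y := Real.log x with hydef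
  have hy0 : 0 ≤ y := Real.log_nonneg (by linarith)
  have han : a ≤ n := by
    rw [ha]; exact div_le_self hn0.le (by linarith)
  set M := ⌊(n : ℝ) + (cs - ε) * a⌋₊ with hM
  have hcsε : 0 < cs - ε := by linarith
  have hMle : (M : ℝ) ≤ n + (cs - ε) * a := Nat.floor_le (by positivity)
  have hnM : n ≤ M := by
    apply Nat.le_floor
    have : 0 ≤ (cs - ε) * a := by positivity
    linarith
  have hM2 : (M : ℝ) ≤ 2 * n := by
    have : (cs - ε) * a ≤ a := mul_le_of_le_one_left ha0.le (by linarith)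
    linarith
  have hsub : ((Ioo (Nat.fib n) (Nat.fib (n + 1))).filter
      (fun k => (e k : ℝ) < n + (cs - ε) * a)).card ≤
      ((Ioo (Nat.fib n) (Nat.fib (n + 1))).filter (fun k => e k ≤ M)).card := by
    apply Finset.card_le_card
    intro k hk
    rw [Finset.mem_filter] at hk ⊢
    exact ⟨hk.1, Nat.le_floor hk.2.le⟩
  set T := M + 1 - n with hT
  have hTr : (T : ℝ) ≤ (cs - ε) * a + 1 := by
    have : (T : ℝ) = (M : ℝ) + 1 - n := by
      rw [hT, Nat.cast_sub (by omega)]; push_cast; ring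
    linarith
  set S1 : ℝ := κ * ((cs - ε) * a + 1) with hS1
  have hs1r : ((⌊κ * T⌋₊ : ℕ) : ℝ) ≤ S1 :=
    (Nat.floor_le (by positivity)).trans (mul_le_mul_of_nonneg_left hTr hκ0.le)
  have hs2r : ((2 + 42 * T : ℕ) : ℝ) ≤ 44 + 12 * a := by
    push_cast
    have : (cs - ε) * a ≤ 0.27 * a := mul_le_mul_of_nonneg_right (by linarith) ha0.le
    linarith
  have hcount := count_exp K n M ⌊κ * T⌋₊ (2 + 42 * T) x a y S1 (44 + 12 * a) hn (by linarith)
    hexp ha hydef hnM hM2 hs1r hs2r (by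
      intro m z hm hz hfz
      have h1 := hz.far_le (n := n) (by omega) hfz hc1 hc2 hH1 hμ0 hcμ hB
      apply Nat.le_floor
      refine h1.trans ?_
      rw [← hκ]
      apply mul_le_mul_of_nonneg_left _ hκ0.le
      have : m + 1 - n ≤ T := by omega
      exact_mod_cast this) (le_refl _)
  have hfibpos : (0 : ℝ) < (Nat.fib n : ℝ) := by
    have : 0 < Nat.fib n := Nat.fib_pos.mpr (by omega)
    exact_mod_cast this
  have hsub' : ((((Ioo (Nat.fib n) (Nat.fib (n + 1))).filter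
      (fun k => (e k : ℝ) < n + (cs - ε) * a)).card : ℕ) : ℝ) ≤
      ((((Ioo (Nat.fib n) (Nat.fib (n + 1))).filter (fun k => e k ≤ M)).card : ℕ) : ℝ) := by
    exact_mod_cast hsub
  refine (hsub'.trans hcount).trans ?_
  rw [Real.rpow_def_of_pos hfibpos]
  apply Real.exp_le_exp.mpr
  have hlf := log_fib_lo n hn
  have h15 : (15 : ℝ) ≤ n := by exact_mod_cast hn
  have hfin := expo_aux x a y n ℓ ε S1 (44 + 12 * a) K2 (by linarith) ha0 hy0 hax
    (by
      rw [hS1]
      have h1 : (cs - ε) * a ≤ 0.27 * a := mul_le_mul_of_nonneg_right (by linarith) ha0.le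
      calc κ * ((cs - ε) * a + 1) ≤ 3 * (0.27 * a + 1) :=
            mul_le_mul hκ3 (by linarith) (by positivity) (by norm_num)
        _ ≤ a + 3 := by linarith)
    (by
      rw [hS1]
      have h1 : κ * ((cs - ε) * a + 1) * x = (κ * (cs - ε)) * (a * x) + κ * x := by ring
      rw [h1, hax]
      have h2 : (κ * (cs - ε)) * (n : ℝ) ≤ ℓ * (1 - 2 * ε) * n :=
        mul_le_mul_of_nonneg_right hκ1 hn0.le
      have h3 : κ * x ≤ 3 * x := mul_le_mul_of_nonneg_right hκ3 hx0.le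
      linarith)
    (le_refl _) hℓ1 hℓ2 hε hK20
    (by
      rw [div_le_iff₀ hε] at hxK
      linarith)
    (by
      rw [hexp] at hlin
      have h1 : y ≤ x := by
        have : ε / 1000 * x ≤ 1 * x := mul_le_mul_of_nonneg_right (by linarith) hx0.le
        linarith
      have h2 : 110 * x ≤ 0.2 * ε * n := by
        have := mul_le_mul_of_nonneg_left hlin (show (0 : ℝ) ≤ 110 by norm_num)
        calc 110 * x ≤ 110 * (0.2 * ε / 110 * n) := this
          _ = 0.2 * ε * n := by ring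
      linarith)
  rw [mul_comm (Real.log (Nat.fib n : ℝ))]
  refine hfin.trans ?_
  apply mul_le_mul_of_nonneg_left _ (by linarith)
  exact hlf

end Pool.Agent.ElemSeq
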