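import Pool.Agent.ElemSeq.LowerFar

/-! An elementary sequence is determined by its code. -/

namespace Pool.Agent.ElemSeq

open Finset

variable {m K : ℕ} {x y : ℕ → ℕ}

noncomputable def IZ (K m : ℕ) (x : ℕ → ℕ) : Finset ℕ := (Ico 1 (m - 1)).filter (Far K x)

open Classical in
noncomputable def pairOf (x : ℕ → ℕ) (i : ℕ) : ℕ × ℕ :=
  if h : ∃ ab : ℕ × ℕ, ab.2 < ab.1 ∧ ab.1 ≤ i ∧ x (i + 1) = x ab.1 + x ab.2 then h.choose else (0, 0)

open Classical in
noncomputable def nd (K : ℕ) (x : ℕ → ℕ) (i : ℕ) : ℕ × ℕ :=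
  if h : ∃ pq : ℕ × ℕ, NearData K x i pq.1 pq.2 then h.choose else (0, 0)

noncomputable def PS (K m : ℕ) (x : ℕ → ℕ) : Finset (ℕ × ℕ) := (IZ K m x).image (pairOf x)

noncomputable def NearSet (K m : ℕ) (x : ℕ → ℕ) : Finset ℕ :=
  (Ico 1 (m - 1)).filter (fun i => x (i + 1) ≠ x i + x (i - 1) ∧ ¬ Far K x i)

noncomputable def NS (K m : ℕ) (x : ℕ → ℕ) : Finset (ℕ × (ℕ × ℕ)) :=
  (NearSet K m x).image (fun i => (i, nd K x i))

theorem Sq.pairOf_spec (h : Sq m x) {i : ℕ} (him : i + 1 < m) (hf : Far K x i) :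
    (pairOf x i).2 < (pairOf x i).1 ∧ (pairOf x i).1 ≤ i ∧
      x (i + 1) = x (pairOf x i).1 + x (pairOf x i).2 := by
  obtain ⟨_, a, b, hab, hai, _, hs⟩ := h.far_pair him hf
  have hex : ∃ ab : ℕ × ℕ, ab.2 < ab.1 ∧ ab.1 ≤ i ∧ x (i + 1) = x ab.1 + x ab.2 :=
    ⟨(a, b), hab, hai, hs⟩
  unfold pairOf
  rw [dif_pos hex]
  exact hex.choose_spec

theorem nd_spec {i : ℕ} (hne : x (i + 1) ≠ x i + x (i - 1)) (hf : ¬ Far K x i) :
    NearData K x i (nd K x i).1 (nd K x i).2 := by
  have hex : ∃ pq : ℕ × ℕ, NearData K x i pq.1 pq.2 := by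
    by_contra hcon
    exact hf ⟨hne, fun ⟨p, q, hpq⟩ => hcon ⟨(p, q), hpq⟩⟩
  unfold nd
  rw [dif_pos hex]
  exact hex.choose_spec

theorem far_step_le (hx : Sq m x) (hy : Sq m y) {i : ℕ} (hi : 1 ≤ i) (him : i + 1 < m)
    (ih : ∀ j ≤ i, x j = y j) (hf : Far K y i) (hP : PS K m y ⊆ PS K m x) : x (i + 1) ≤ y (i + 1) := by
  obtain ⟨hlt, _⟩ := hy.far_pair him hf
  obtain ⟨p1, p2, p3⟩ := hy.pairOf_spec him hf
  have hmem : pairOf y i ∈ PS K m y := by
    unfold PS IZ
    exact Finset.mem_image_of_mem _ (by rw [Finset.mem_filter, Finset.mem_Ico]; exact ⟨by omega, hf⟩)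
  have hmem2 := hP hmem
  unfold PS IZ at hmem2
  rw [Finset.mem_image] at hmem2
  obtain ⟨j, hj, hje⟩ := hmem2
  rw [Finset.mem_filter, Finset.mem_Ico] at hj
  obtain ⟨q1, q2, q3⟩ := hx.pairOf_spec (i := j) (by omega) hj.2
  rw [hje] at q3
  have e1 := ih (pairOf y i).1 p2
  have e2 := ih (pairOf y i).2 (by omega)
  have e3 := ih i (le_refl i)
  have hval : x (j + 1) = y (i + 1) := by rw [q3, p3, e1, e2]
  rw [← hval]
  apply hx.mono
  · by_contra hcon
    push Not at hcon
    have h4 := hx.mono (j + 1) i (by omega) (by omega)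
    omega
  · omega

theorem mem_NS_iff {i : ℕ} {pq : ℕ × ℕ} :
    (i, pq) ∈ NS K m x ↔ i ∈ NearSet K m x ∧ nd K x i = pq := by
  unfold NS
  rw [Finset.mem_image]
  constructor
  · rintro ⟨j, hj, hje⟩
    rw [Prod.mk.injEq] at hje
    obtain ⟨rfl, h2⟩ := hje
    exact ⟨hj, h2⟩
  · rintro ⟨h1, h2⟩
    exact ⟨i, h1, by rw [h2]⟩

theorem code_inj (hx : Sq m x) (hy : Sq m y) (h1 : IZ K m x = IZ K m y) (h2 : PS K m x = PS K m y)
    (h3 : NS K m x = NS K m y) : ∀ i, i < m → x i = y i := by
  intro i
  induction i using Nat.strong_induction_on with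
  | _ i ih =>
    intro hi
    match i, ih, hi with
    | 0, _, _ => rw [hx.zero, hy.zero]
    | 1, _, _ => rw [hx.one, hy.one]
    | i + 2, ih, hi =>
      have ih' : ∀ j ≤ i + 1, x j = y j := fun j hj => ih j (by omega) (by omega)
      by_cases hnx : i + 1 ∈ NearSet K m x
      · have a1 : (i + 1, nd K x (i + 1)) ∈ NS K m y := by
          rw [← h3, mem_NS_iff]; exact ⟨hnx, rfl⟩
        obtain ⟨a2, a3⟩ := mem_NS_iff.mp a1
        unfold NearSet at hnx a2
        rw [Finset.mem_filter] at hnx a2
        have b1 := nd_spec hnx.2.1 hnx.2.2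
        have b2 := nd_spec a2.2.1 a2.2.2
        rw [a3] at b2
        have b3 := b1.2.2.2.2
        have b4 := b2.2.2.2.2
        change x (i + 1 + 1) = y (i + 1 + 1)
        rw [b3, b4]
        unfold val
        split_ifs with hpq
        · rw [ih' _ (by omega), ih' _ (by omega)]
        · exact ih' _ (le_refl _)
      · by_cases hny : i + 1 ∈ NearSet K m y
        · have a1 : (i + 1, nd K y (i + 1)) ∈ NS K m x := by
            rw [h3, mem_NS_iff]; exact ⟨hny, rfl⟩
          exact absurd (mem_NS_iff.mp a1).1 hnx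
        · by_cases hfx : i + 1 ∈ IZ K m x
          · have hfy : i + 1 ∈ IZ K m y := h1 ▸ hfx
            unfold IZ at hfx hfy
            rw [Finset.mem_filter] at hfx hfy
            have c1 := far_step_le hx hy (i := i + 1) (by omega) (by omega) ih' hfy.2 (by rw [h2])
            have c2 := far_step_le hy hx (i := i + 1) (by omega) (by omega)
              (fun j hj => (ih' j hj).symm) hfx.2 (by rw [h2])
            exact le_antisymm c1 c2
          · have hfy : i + 1 ∉ IZ K m y := h1 ▸ hfx
            have hIco : i + 1 ∈ Ico 1 (m - 1) := by rw [Finset.mem_Ico]; omega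
            have d1 : x (i + 1 + 1) = x (i + 1) + x (i + 1 - 1) := by
              by_contra hcon
              apply hnx
              unfold NearSet
              rw [Finset.mem_filter]
              refine ⟨hIco, hcon, ?_⟩
              intro hf
              apply hfx
              unfold IZ
              rw [Finset.mem_filter]
              exact ⟨hIco, hf⟩
            have d2 : y (i + 1 + 1) = y (i + 1) + y (i + 1 - 1) := by
              by_contra hcon
              apply hny
              unfold NearSet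
              rw [Finset.mem_filter]
              refine ⟨hIco, hcon, ?_⟩
              intro hf
              apply hfy
              unfold IZ
              rw [Finset.mem_filter]
              exact ⟨hIco, hf⟩
            change x (i + 1 + 1) = y (i + 1 + 1)
            rw [d1, d2, ih' _ (le_refl _), ih' _ (by omega)]

/-- Subsets of `A` with at most `s` elements. -/
def sub {α : Type*} (A : Finset α) (s : ℕ) : Finset (Finset α) :=
  A.powerset.filter (fun B => B.card ≤ s)

theorem card_sub_le {α : Type*} [DecidableEq α] (A : Finset α) (s : ℕ) (u : ℝ) (hu : 0 < u)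
    (hu1 : u ≤ 1) : ((sub A s).card : ℝ) ≤ Real.exp (u * A.card) * (1 / u) ^ s := by
  have h1 : ((sub A s).card : ℝ) * u ^ s ≤ ∑ B ∈ A.powerset, u ^ B.card := by
    calc ((sub A s).card : ℝ) * u ^ s = ∑ B ∈ sub A s, u ^ s := by
          rw [Finset.sum_const, nsmul_eq_mul]
      _ ≤ ∑ B ∈ sub A s, u ^ B.card := by
          apply Finset.sum_le_sum
          intro B hB
          unfold sub at hB
          rw [Finset.mem_filter] at hB
          exact pow_le_pow_of_le_one hu.le hu1 hB.2
      _ ≤ ∑ B ∈ A.powerset, u ^ B.card := by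
          apply Finset.sum_le_sum_of_subset_of_nonneg (Finset.filter_subset _ _)
          intro B _ _; positivity
  have h2 : ∑ B ∈ A.powerset, u ^ B.card = (u + 1) ^ A.card := by
    have := Finset.sum_pow_mul_eq_add_pow u 1 A
    simpa using this
  have h3 : (u + 1) ^ A.card ≤ Real.exp (u * A.card) := by
    rw [mul_comm, Real.exp_nat_mul]
    exact pow_le_pow_left₀ (by linarith) (Real.add_one_le_exp u) _
  rw [one_div, inv_pow, ← div_eq_mul_inv, le_div_iff₀ (by positivity)]
  rw [h2] at h1
  exact h1.trans h3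

/-- The counting bound. -/
theorem count_bound (K n M s1 s2 : ℕ) (hn : 3 ≤ n)
    (hs1 : ∀ m x, m ≤ M → Sq m x → Nat.fib n ≤ x (m - 1) →
      ((Ico 1 (m - 1)).filter (Far K x)).card ≤ s1) (hs2 : 2 + 42 * (M + 1 - n) ≤ s2) :
    (((Ioo (Nat.fib n) (Nat.fib (n + 1))).filter (fun k => e k ≤ M)).card) ≤
      (M + 1) * ((sub (range M) s1).card * ((sub (range M ×ˢ range M) s1).card *
        (sub (range M ×ˢ (range (K + 1) ×ˢ range (K + 1))) s2).card)) := by
  classical
  set S := (Ioo (Nat.fib n) (Nat.fib (n + 1))).filter (fun k => e k ≤ M) with hS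
  have hfib : 2 ≤ Nat.fib n := by
    have : Nat.fib 3 ≤ Nat.fib n := Nat.fib_mono hn
    have h3 : Nat.fib 3 = 2 := by decide
    omega
  have hex : ∀ k ∈ S, ∃ m x, m ≤ M ∧ Sq m x ∧ x (m - 1) = k ∧ Nat.fib n ≤ x (m - 1) := by
    intro k hk
    rw [hS, Finset.mem_filter, Finset.mem_Ioo] at hk
    obtain ⟨m, x, h1, h2, h3⟩ := exists_sq k (by omega)
    exact ⟨m, x, h1.trans hk.2, h2, h3, by omega⟩
  choose! mm xx g1 g2 g3 g4 using hex
  have hcard := Finset.card_le_card_of_injOn (s := S)
    (t := range (M + 1) ×ˢ ((sub (range M) s1) ×ˢ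
        ((sub (range M ×ˢ range M) s1) ×ˢ
        (sub (range M ×ˢ (range (K + 1) ×ˢ range (K + 1))) s2))))
    (fun k => (mm k, (IZ K (mm k) (xx k), (PS K (mm k) (xx k), NS K (mm k) (xx k))))) ?_ ?_
  · refine hcard.trans (le_of_eq ?_)
    rw [Finset.card_product, Finset.card_product, Finset.card_product, Finset.card_range]
  · intro k hk
    have hk' : k ∈ S := hk
    have f1 := g1 k hk'
    have f2 := g2 k hk'
    have f4 := g4 k hk'
    have hfar := hs1 _ _ f1 f2 f4
    have hnon := f2.nonfib_le (n := n) (by omega) f4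
    have hm2 := f2.two
    simp only [Finset.coe_product, Set.mem_prod, Finset.mem_coe]
    have hIZ : (IZ K (mm k) (xx k)).card ≤ s1 := hfar
    refine ⟨by rw [Finset.mem_range]; omega, ?_, ?_, ?_⟩
    · unfold sub
      rw [Finset.mem_filter, Finset.mem_powerset]
      refine ⟨?_, hIZ⟩
      intro i hi
      unfold IZ at hi
      rw [Finset.mem_filter, Finset.mem_Ico] at hi
      rw [Finset.mem_range]; omega
    · unfold sub
      rw [Finset.mem_filter, Finset.mem_powerset]
      refine ⟨?_, (Finset.card_image_le).trans hIZ⟩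
      intro ab hab
      unfold PS at hab
      rw [Finset.mem_image] at hab
      obtain ⟨i, hi, rfl⟩ := hab
      unfold IZ at hi
      rw [Finset.mem_filter, Finset.mem_Ico] at hi
      obtain ⟨p1, p2, _⟩ := f2.pairOf_spec (i := i) (by omega) hi.2
      rw [Finset.mem_product, Finset.mem_range, Finset.mem_range]
      omega
    · unfold sub
      rw [Finset.mem_filter, Finset.mem_powerset]
      refine ⟨?_, ?_⟩
      · rintro ⟨i, pq⟩ hi
        rw [mem_NS_iff] at hi
        obtain ⟨hi1, rfl⟩ := hi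
        unfold NearSet at hi1
        rw [Finset.mem_filter, Finset.mem_Ico] at hi1
        have hsp := nd_spec hi1.2.1 hi1.2.2
        rw [Finset.mem_product, Finset.mem_product, Finset.mem_range, Finset.mem_range,
          Finset.mem_range]
        refine ⟨by simp only; omega, ?_, ?_⟩
        · have := hsp.1; simp only; omega
        · have := hsp.2.1; simp only; omega
      · have hsub : (NearSet K (mm k) (xx k)).card ≤ 2 + 42 * (mm k + 1 - n) := by
          refine le_trans (Finset.card_le_card ?_) hnon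
          intro i hi
          unfold NearSet at hi
          rw [Finset.mem_filter] at hi ⊢
          exact ⟨hi.1, hi.2.1⟩
        have h5 : (NS K (mm k) (xx k)).card ≤ (NearSet K (mm k) (xx k)).card := Finset.card_image_le
        have : 42 * (mm k + 1 - n) ≤ 42 * (M + 1 - n) := Nat.mul_le_mul_left _ (by omega)
        omega
  · intro k hk k' hk' heq
    simp only [Prod.mk.injEq] at heq
    obtain ⟨e1, e2, e3, e4⟩ := heq
    have f2 := g2 k hk
    have f2' := g2 k' hk'
    rw [← e1] at f2' e2 e3 e4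
    have hm2 := f2.two
    have := code_inj f2 f2' e2 e3 e4 (mm k - 1) (by omega)
    rw [g3 k hk] at this
    rw [this, e1]
    exact g3 k' hk'

end Pool.Agent.ElemSeq
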