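import Pool.Agent.ElemSeq.Closed
import Pool.Agent.ElemSeq.Golden

/-! Combinatorics of the lower bound: potential, lossy steps, windows. -/

namespace Pool.Agent.ElemSeq

open Real Finset
open scoped goldenRatio

/-- Internal form of an elementary sequence. -/
structure Sq (m : ℕ) (x : ℕ → ℕ) : Prop where
  two : 2 ≤ m
  zero : x 0 = 1
  one : x 1 = 1
  mono : ∀ i j, i ≤ j → j < m → x i ≤ x j
  step : ∀ i < m, 1 < x i → ∃ a b, b < a ∧ a < i ∧ x i = x a + x b

theorem exists_sq (k : ℕ) (hk : 2 ≤ k) : ∃ m x, m ≤ e k ∧ Sq m x ∧ x (m - 1) = k := by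
  have hne : {n | ∃ x : Fin n → ℕ, IsElementary n x ∧ ∃ i, x i = k}.Nonempty := by
    obtain ⟨T, _, hT2, _, hT4⟩ := halving _ (closed_Icc 6 (by norm_num))
      (Finset.Subset.refl _) k (by omega)
    exact ⟨_, hT2.exists_elem hT4⟩
  have hmem := Nat.sInf_mem hne
  change ∃ x : Fin (e k) → ℕ, IsElementary (e k) x ∧ ∃ i, x i = k at hmem
  generalize e k = N at hmem ⊢
  obtain ⟨x, hx, i0, hi0⟩ := hmem
  refine ⟨(i0 : ℕ) + 1, fun j => if h : j < N then x ⟨j, h⟩ else 0, by omega, ?_, ?_⟩
  · have hi2 : 2 ≤ (i0 : ℕ) := by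
      by_contra hcon
      have := hx.start i0 (by omega)
      omega
    have hlt : (i0 : ℕ) < N := i0.2
    refine ⟨by omega, ?_, ?_, ?_, ?_⟩
    · simp only [show 0 < N by omega, dif_pos]
      exact hx.start _ (by simp)
    · simp only [show 1 < N by omega, dif_pos]
      exact hx.start _ (by simp)
    · intro i j hij hj
      simp only [show i < N by omega, show j < N by omega, dif_pos]
      exact hx.mono (Fin.mk_le_mk.mpr hij)
    · intro i hi h1
      simp only [show i < N by omega, dif_pos] at h1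
      obtain ⟨a, b, hab, hs⟩ := hx.step _ h1
      have hai : (a : ℕ) < i := by
        by_contra hcon
        push Not at hcon
        have : x ⟨i, by omega⟩ ≤ x a := hx.mono (show (⟨i, by omega⟩ : Fin N) ≤ a from hcon)
        have hb := hx.pos b
        omega
      have hbi : (b : ℕ) < i := by
        by_contra hcon
        push Not at hcon
        have : x ⟨i, by omega⟩ ≤ x b := hx.mono (show (⟨i, by omega⟩ : Fin N) ≤ b from hcon)
        have hb := hx.pos a
        omega
      have hne2 : (a : ℕ) ≠ b := fun h => hab (Fin.ext h)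
      rcases Nat.lt_or_gt_of_ne hne2 with h | h
      · refine ⟨b, a, h, hbi, ?_⟩
        simp only [show i < N by omega, show (b : ℕ) < N from b.2, show (a : ℕ) < N from a.2, dif_pos]
        rw [hs]; simp only [Fin.eta]; omega
      · refine ⟨a, b, h, hai, ?_⟩
        simp only [show i < N by omega, show (b : ℕ) < N from b.2, show (a : ℕ) < N from a.2, dif_pos]
        rw [hs]
  · simp only [Nat.add_sub_cancel, show (i0 : ℕ) < N from i0.2, dif_pos]
    simpa using hi0

variable {m : ℕ} {x : ℕ → ℕ}

theorem Sq.pos (h : Sq m x) {i : ℕ} (hi : i < m) : 1 ≤ x i := by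
  have := h.mono 0 i (Nat.zero_le _) hi
  rw [h.zero] at this; exact this

/-- The potential. -/
noncomputable def Phi (x : ℕ → ℕ) (i : ℕ) : ℝ := φ * x i + x (i - 1)

theorem Sq.le_add (h : Sq m x) {i : ℕ} (hi : 1 ≤ i) (him : i + 1 < m) :
    x (i + 1) ≤ x i + x (i - 1) := by
  rcases Nat.lt_or_ge 1 (x (i + 1)) with h1 | h1
  · obtain ⟨a, b, hab, hai, hs⟩ := h.step _ him h1
    have h2 := h.mono a i (by omega) (by omega)
    have h3 := h.mono b (i - 1) (by omega) (by omega)
    omega
  · have := h.pos (i := i) (by omega)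
    omega

/-- At a step which is not of Fibonacci type. -/
theorem Sq.le_add' (h : Sq m x) {i : ℕ} (hi : 2 ≤ i) (him : i + 1 < m)
    (hne : x (i + 1) ≠ x i + x (i - 1)) : x (i + 1) ≤ x i + x (i - 2) := by
  rcases Nat.lt_or_ge 1 (x (i + 1)) with h1 | h1
  · obtain ⟨a, b, hab, hai, hs⟩ := h.step _ him h1
    rcases Nat.lt_or_ge a i with h2 | h2
    · have h3 := h.mono a i (by omega) (by omega)
      have h4 := h.mono b (i - 2) (by omega) (by omega)
      omega
    · have h5 : a = i := by omega
      subst h5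
      have hb : b ≠ a - 1 := by
        rintro rfl
        exact hne hs
      have h4 := h.mono b (a - 2) (by omega) (by omega)
      omega
  · have := h.pos (i := i) (by omega)
    omega

theorem Sq.le_two_mul (h : Sq m x) {i : ℕ} (him : i + 1 < m) : x (i + 1) ≤ 2 * x i := by
  rcases Nat.eq_zero_or_pos i with rfl | hi
  · rw [h.zero, h.one]; norm_num
  · have h1 := h.le_add hi him
    have h2 := h.mono (i - 1) i (by omega) (by omega)
    omega

theorem Phi_succ (x : ℕ → ℕ) (i : ℕ) :
    Phi x (i + 1) = φ * (Phi x i - ((x i : ℝ) + x (i - 1) - x (i + 1))) := by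
  unfold Phi
  simp only [Nat.add_sub_cancel]
  have := Real.goldenRatio_sq
  linear_combination (-(x i : ℝ)) * this

theorem Sq.Phi_le (h : Sq m x) {i : ℕ} (hi : 1 ≤ i) (him : i + 1 < m) :
    Phi x (i + 1) ≤ φ * Phi x i := by
  rw [Phi_succ]
  have h1 : ((x (i + 1) : ℕ) : ℝ) ≤ (x i : ℝ) + (x (i - 1) : ℝ) := by exact_mod_cast h.le_add hi him
  apply mul_le_mul_of_nonneg_left _ Real.goldenRatio_pos.le
  linarith

theorem Sq.Phi_mono (h : Sq m x) {i : ℕ} (hi : 1 ≤ i) (him : i + 1 < m) :
    Phi x i ≤ Phi x (i + 1) := by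
  unfold Phi
  have h1 : ((x i : ℕ) : ℝ) ≤ (x (i + 1) : ℝ) := by exact_mod_cast h.mono _ _ (Nat.le_succ i) him
  have h2 : ((x (i - 1) : ℕ) : ℝ) ≤ (x (i + 1 - 1) : ℝ) := by
    exact_mod_cast h.mono _ _ (by omega) (by omega)
  have := Real.goldenRatio_pos
  nlinarith

theorem Sq.Phi_pos (h : Sq m x) {i : ℕ} (hi : i < m) : 0 < Phi x i := by
  unfold Phi
  have h1 : (1 : ℝ) ≤ (x i : ℝ) := by exact_mod_cast h.pos hi
  have := Real.goldenRatio_pos
  have h2 : (0 : ℝ) ≤ (x (i - 1) : ℝ) := Nat.cast_nonneg _
  nlinarith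

/-- Counting steps with a loss factor `c`. -/
theorem Sq.count_pow (h : Sq m x) (c : ℝ) (hc : 1 ≤ c) (p : ℕ → Prop) [DecidablePred p]
    (hp : ∀ i, 1 ≤ i → i + 1 < m → p i → c * Phi x (i + 1) ≤ φ * Phi x i) :
    ∀ i, 1 ≤ i → i < m → c ^ ((Ico 1 i).filter p).card * Phi x i ≤ φ ^ (i + 1) := by
  intro i hi
  induction i, hi using Nat.le_induction with
  | base =>
    intro _
    simp only [Finset.Ico_self, Finset.filter_empty, Finset.card_empty, pow_zero, one_mul]
    unfold Phi
    simp only [h.one, Nat.sub_self, h.zero]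
    have := Real.goldenRatio_sq
    push_cast
    norm_num
  | succ i hi ih =>
    intro him
    have ih := ih (by omega)
    have hc0 : 0 < c := by linarith
    have hφ := Real.goldenRatio_pos
    have hins : Ico 1 (i + 1) = insert i (Ico 1 i) := by
      ext j; simp only [Finset.mem_Ico, Finset.mem_insert]; omega
    by_cases hpi : p i
    · have h1 : ((Ico 1 (i + 1)).filter p).card = ((Ico 1 i).filter p).card + 1 := by
        rw [hins, Finset.filter_insert, if_pos hpi, Finset.card_insert_of_notMem]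
        simp
      rw [h1, pow_succ]
      have h2 := hp i hi him hpi
      calc c ^ ((Ico 1 i).filter p).card * c * Phi x (i + 1)
          = c ^ ((Ico 1 i).filter p).card * (c * Phi x (i + 1)) := by ring
        _ ≤ c ^ ((Ico 1 i).filter p).card * (φ * Phi x i) :=
            mul_le_mul_of_nonneg_left h2 (by positivity)
        _ = φ * (c ^ ((Ico 1 i).filter p).card * Phi x i) := by ring
        _ ≤ φ * φ ^ (i + 1) := mul_le_mul_of_nonneg_left ih hφ.le
        _ = φ ^ (i + 1 + 1) := by ring
    · have h1 : ((Ico 1 (i + 1)).filter p).card = ((Ico 1 i).filter p).card := by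
        rw [hins, Finset.filter_insert, if_neg hpi]
      rw [h1]
      have h2 := h.Phi_le hi him
      calc c ^ ((Ico 1 i).filter p).card * Phi x (i + 1)
          ≤ c ^ ((Ico 1 i).filter p).card * (φ * Phi x i) :=
            mul_le_mul_of_nonneg_left h2 (by positivity)
        _ = φ * (c ^ ((Ico 1 i).filter p).card * Phi x i) := by ring
        _ ≤ φ * φ ^ (i + 1) := mul_le_mul_of_nonneg_left ih hφ.le
        _ = φ ^ (i + 1 + 1) := by ring

/-- Growth in a window. -/
theorem Sq.window_pow (h : Sq m x) (g : ℝ) (hg : 1 ≤ g) (p : ℕ → Prop) [DecidablePred p]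
    (hp : ∀ i, 1 ≤ i → i + 1 < m → p i → g * Phi x i ≤ Phi x (i + 1)) (a : ℕ) (ha : 1 ≤ a) :
    ∀ b, a ≤ b → b < m → g ^ ((Ico a b).filter p).card * Phi x a ≤ Phi x b := by
  intro b hb
  induction b, hb using Nat.le_induction with
  | base => intro _; simp
  | succ i hi ih =>
    intro him
    have ih := ih (by omega)
    have hg0 : 0 < g := by linarith
    have hins : Ico a (i + 1) = insert i (Ico a i) := by
      ext j; simp only [Finset.mem_Ico, Finset.mem_insert]; omega
    by_cases hpi : p i
    · have h1 : ((Ico a (i + 1)).filter p).card = ((Ico a i).filter p).card + 1 := by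
        rw [hins, Finset.filter_insert, if_pos hpi, Finset.card_insert_of_notMem]
        simp
      rw [h1, pow_succ]
      have h2 := hp i (by omega) him hpi
      calc g ^ ((Ico a i).filter p).card * g * Phi x a
          = g * (g ^ ((Ico a i).filter p).card * Phi x a) := by ring
        _ ≤ g * Phi x i := mul_le_mul_of_nonneg_left ih hg0.le
        _ ≤ _ := h2
    · have h1 : ((Ico a (i + 1)).filter p).card = ((Ico a i).filter p).card := by
        rw [hins, Finset.filter_insert, if_neg hpi]
      rw [h1]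
      exact ih.trans (h.Phi_mono (by omega) him)

end Pool.Agent.ElemSeq
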