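import Pool.Agent.ElemSeq.LowerLoss

/-! The number of far steps. -/

namespace Pool.Agent.ElemSeq

open Real Finset
open scoped goldenRatio

variable {m : ℕ} {x : ℕ → ℕ}

theorem Sq.farNL_le (h : Sq m x) {c μ : ℝ} {B H : ℕ} (hc1 : 1 < c) (hc2 : c ≤ 1.3091)
    (hμ : 0 < μ) (hcμ : c * (φ + 1 + μ * φ) ≤ φ * (φ + 1 / 2)) (hB : 1 / μ < 1.23 ^ (B + 1)) :
    H * ((Ico 1 (m - 1)).filter
        (fun i => Far (B + (B + 1) * H) x i ∧ ¬ Lossy c x i)).card
      ≤ ((Ico 1 (m - 1)).filter (Lossy c x)).card := by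
  set K := B + (B + 1) * H with hK
  set J := (Ico 1 (m - 1)).filter (fun i => Far K x i ∧ ¬ Lossy c x i) with hJ
  set Λ := (Ico 1 (m - 1)).filter (Lossy c x) with hΛ
  have hmem : ∀ i ∈ J, 1 ≤ i ∧ i + 1 < m ∧ Far K x i ∧ ¬ Lossy c x i := by
    intro i hi
    rw [hJ, Finset.mem_filter, Finset.mem_Ico] at hi
    exact ⟨by omega, by omega, hi.2.1, hi.2.2⟩
  have key := Finset.card_mul_le_card_mul (s := J) (t := Λ) (m := (B + 1) * H) (n := B + 1)
    (fun i j => j ∈ Ico (i - K) i) ?_ ?_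
  · have h1 : (B + 1) * (H * J.card) ≤ (B + 1) * Λ.card := by
      calc (B + 1) * (H * J.card) = J.card * ((B + 1) * H) := by ring
        _ ≤ Λ.card * (B + 1) := key
        _ = (B + 1) * Λ.card := by ring
    exact Nat.le_of_mul_le_mul_left h1 (by omega)
  · intro i hi
    obtain ⟨h1, h2, h3, h4⟩ := hmem i hi
    obtain ⟨h5, h6⟩ := h.far_window hc1 hc2 hμ hcμ hB h1 h2 h3 h4
    have hsub : (Ico (i - K) i).filter (Lossy c x) ⊆
        Finset.bipartiteAbove (fun i j => j ∈ Ico (i - K) i) Λ i := by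
      intro j hj
      rw [Finset.mem_filter, Finset.mem_Ico] at hj
      rw [Finset.mem_bipartiteAbove, hΛ, Finset.mem_filter, Finset.mem_Ico, Finset.mem_Ico]
      exact ⟨⟨by omega, hj.2⟩, by omega⟩
    have hc := Finset.card_filter_add_card_filter_not (s := Ico (i - K) i) (Lossy c x)
    rw [Nat.card_Ico] at hc
    have hle := Finset.card_le_card hsub
    omega
  · intro j hj
    set A := Finset.bipartiteBelow (fun i j => j ∈ Ico (i - K) i) J j with hA
    have hAmem : ∀ i, i ∈ A ↔ i ∈ J ∧ i - K ≤ j ∧ j < i := by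
      intro i
      rw [hA, Finset.mem_bipartiteBelow, Finset.mem_Ico]
    rcases A.eq_empty_or_nonempty with he | hne
    · rw [he]; simp
    · set i₀ := A.max' hne with hi₀
      have hi₀A : i₀ ∈ A := Finset.max'_mem A hne
      obtain ⟨hJ0, hK0, hj0⟩ := (hAmem i₀).mp hi₀A
      obtain ⟨h1, h2, h3, h4⟩ := hmem i₀ hJ0
      obtain ⟨h5, h6⟩ := h.far_window hc1 hc2 hμ hcμ hB h1 h2 h3 h4
      have hsub : A ⊆ insert i₀ ((Ico (i₀ - K) i₀).filter (fun j => ¬ Lossy c x j)) := by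
        intro i hi
        have hile : i ≤ i₀ := Finset.le_max' A i hi
        obtain ⟨g1, g2, g3⟩ := (hAmem i).mp hi
        obtain ⟨f1, f2, f3, f4⟩ := hmem i g1
        rw [Finset.mem_insert, Finset.mem_filter, Finset.mem_Ico]
        rcases Nat.lt_or_ge i i₀ with hlt | hge
        · right; exact ⟨⟨by omega, hlt⟩, f4⟩
        · left; omega
      have hle := Finset.card_le_card hsub
      have hins := Finset.card_insert_le i₀ ((Ico (i₀ - K) i₀).filter (fun j => ¬ Lossy c x j))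
      omega

theorem Sq.far_le (h : Sq m x) {n : ℕ} (hn : 2 ≤ n) (hk : Nat.fib n ≤ x (m - 1))
    {c μ : ℝ} {B H : ℕ} (hc1 : 1 < c) (hc2 : c ≤ 1.3091) (hH : 1 ≤ H)
    (hμ : 0 < μ) (hcμ : c * (φ + 1 + μ * φ) ≤ φ * (φ + 1 / 2)) (hB : 1 / μ < 1.23 ^ (B + 1)) :
    (((Ico 1 (m - 1)).filter (Far (B + (B + 1) * H) x)).card : ℝ)
      ≤ (1 + 1 / H) * (Real.log φ / Real.log c) * ((m + 1 - n : ℕ) : ℝ) := by
  have h1 := h.farNL_le (H := H) hc1 hc2 hμ hcμ hB
  have h2 := h.lossy_le hn hk hc1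
  set K := B + (B + 1) * H with hK
  have hsub : (Ico 1 (m - 1)).filter (Far K x) ⊆
      (Ico 1 (m - 1)).filter (fun i => Far K x i ∧ ¬ Lossy c x i) ∪
        (Ico 1 (m - 1)).filter (Lossy c x) := by
    intro i hi
    rw [Finset.mem_filter] at hi
    rw [Finset.mem_union, Finset.mem_filter, Finset.mem_filter]
    by_cases hl : Lossy c x i
    · right; exact ⟨hi.1, hl⟩
    · left; exact ⟨hi.1, hi.2, hl⟩
  have h3 := (Finset.card_le_card hsub).trans (Finset.card_union_le _ _)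
  set J := ((Ico 1 (m - 1)).filter (fun i => Far K x i ∧ ¬ Lossy c x i)).card
  set Λ := ((Ico 1 (m - 1)).filter (Lossy c x)).card
  have hlc : 0 < Real.log c := Real.log_pos hc1
  have hH0 : (0 : ℝ) < H := by exact_mod_cast hH
  have h4 : (Λ : ℝ) ≤ (Real.log φ / Real.log c) * ((m + 1 - n : ℕ) : ℝ) := by
    rw [div_mul_eq_mul_div, le_div_iff₀ hlc]
    linarith
  have h5 : (J : ℝ) ≤ (1 / H) * Λ := by
    rw [div_mul_eq_mul_div, le_div_iff₀ hH0, one_mul]
    have : ((H * J : ℕ) : ℝ) ≤ Λ := by exact_mod_cast h1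
    push_cast at this
    linarith
  have h6 : (((Ico 1 (m - 1)).filter (Far K x)).card : ℝ) ≤ J + Λ := by exact_mod_cast h3
  calc (((Ico 1 (m - 1)).filter (Far K x)).card : ℝ) ≤ J + Λ := h6
    _ ≤ (1 + 1 / H) * Λ := by linarith
    _ ≤ (1 + 1 / H) * ((Real.log φ / Real.log c) * ((m + 1 - n : ℕ) : ℝ)) :=
        mul_le_mul_of_nonneg_left h4 (by positivity)
    _ = _ := by ring

end Pool.Agent.ElemSeq
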