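import Pool.Agent.ElemSeq.LowerComb

/-! Bounds for the numbers of lossy, non-Fibonacci and far steps. -/

namespace Pool.Agent.ElemSeq

open Real Finset
open scoped goldenRatio

variable {m : ℕ} {x : ℕ → ℕ}

def Lossy (c : ℝ) (x : ℕ → ℕ) (i : ℕ) : Prop := c * Phi x (i + 1) ≤ φ * Phi x i

def Theta (x : ℕ → ℕ) (i : ℕ) : Prop := 42 / 41 * Phi x (i + 1) ≤ φ * Phi x i

noncomputable instance (c : ℝ) (x : ℕ → ℕ) : DecidablePred (Lossy c x) := fun _ => Classical.propDecidable _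
noncomputable instance (x : ℕ → ℕ) : DecidablePred (Theta x) := fun _ => Classical.propDecidable _

theorem Sq.loss_total (h : Sq m x) {n : ℕ} (hn : 2 ≤ n) (hk : Nat.fib n ≤ x (m - 1))
    (c : ℝ) (hc : 1 ≤ c) (p : ℕ → Prop) [DecidablePred p]
    (hp : ∀ i, 1 ≤ i → i + 1 < m → p i → c * Phi x (i + 1) ≤ φ * Phi x i) :
    n ≤ m + 1 ∧ c ^ ((Ico 1 (m - 1)).filter p).card ≤ φ ^ (m + 1 - n) := by
  have hφ := Real.goldenRatio_pos
  have h2 := h.two
  have h1 := h.count_pow c hc p hp (m - 1) (by omega) (by omega)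
  have hm : m - 1 + 1 = m := by omega
  rw [hm] at h1
  have h3 : φ ^ (n - 1) ≤ Phi x (m - 1) := by
    unfold Phi
    have h4 : φ ^ (n - 2) ≤ (Nat.fib n : ℝ) := by
      have := le_fib_add_two (n - 2)
      rwa [show n - 2 + 2 = n by omega] at this
    have h5 : (Nat.fib n : ℝ) ≤ (x (m - 1) : ℝ) := by exact_mod_cast hk
    have h6 : (0 : ℝ) ≤ (x (m - 1 - 1) : ℝ) := Nat.cast_nonneg _
    calc φ ^ (n - 1) = φ * φ ^ (n - 2) := by
          rw [← pow_succ']; congr 1; omega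
      _ ≤ φ * x (m - 1) := mul_le_mul_of_nonneg_left (h4.trans h5) hφ.le
      _ ≤ _ := by linarith
  have hcN : 1 ≤ c ^ ((Ico 1 (m - 1)).filter p).card := one_le_pow₀ hc
  have h7 : c ^ ((Ico 1 (m - 1)).filter p).card * φ ^ (n - 1) ≤ φ ^ m :=
    (mul_le_mul_of_nonneg_left h3 (by linarith)).trans h1
  have h8 : n ≤ m + 1 := by
    by_contra hcon
    push Not at hcon
    have h9 : φ ^ m < φ ^ (n - 1) := pow_lt_pow_right₀ Real.one_lt_goldenRatio (by omega)
    have h10 : φ ^ (n - 1) ≤ c ^ ((Ico 1 (m - 1)).filter p).card * φ ^ (n - 1) :=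
      le_mul_of_one_le_left (by positivity) hcN
    linarith
  refine ⟨h8, ?_⟩
  have h9 : φ ^ m = φ ^ (m + 1 - n) * φ ^ (n - 1) := by
    rw [← pow_add]; congr 1; omega
  rw [h9] at h7
  exact le_of_mul_le_mul_right h7 (by positivity)

theorem Sq.lossy_le (h : Sq m x) {n : ℕ} (hn : 2 ≤ n) (hk : Nat.fib n ≤ x (m - 1))
    {c : ℝ} (hc : 1 < c) :
    (((Ico 1 (m - 1)).filter (Lossy c x)).card : ℝ) * Real.log c
      ≤ ((m + 1 - n : ℕ) : ℝ) * Real.log φ := by
  obtain ⟨_, h2⟩ := h.loss_total hn hk c hc.le (Lossy c x) (fun i _ _ hi => hi)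
  have hφ := Real.goldenRatio_pos
  have hc0 : 0 < c := by linarith
  have h3 := Real.log_le_log (by positivity) h2
  rw [Real.log_pow, Real.log_pow] at h3
  exact h3

theorem Sq.theta_le (h : Sq m x) {n : ℕ} (hn : 2 ≤ n) (hk : Nat.fib n ≤ x (m - 1)) :
    ((Ico 1 (m - 1)).filter (Theta x)).card ≤ 21 * (m + 1 - n) := by
  obtain ⟨_, h2⟩ := h.loss_total hn hk (42 / 41) (by norm_num) (Theta x) (fun i _ _ hi => hi)
  set N := ((Ico 1 (m - 1)).filter (Theta x)).card
  set T := m + 1 - n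
  have hφ := Real.goldenRatio_pos
  have h3 : φ ≤ (42 / 41 : ℝ) ^ 21 := by
    calc φ ≤ (1.618034 : ℝ) := phi_hi.le
      _ ≤ (42 / 41 : ℝ) ^ 21 := by norm_num
  have h4 : (42 / 41 : ℝ) ^ N ≤ (42 / 41 : ℝ) ^ (21 * T) := by
    calc (42 / 41 : ℝ) ^ N ≤ φ ^ T := h2
      _ ≤ ((42 / 41 : ℝ) ^ 21) ^ T := pow_le_pow_left₀ hφ.le h3 _
      _ = (42 / 41 : ℝ) ^ (21 * T) := by rw [pow_mul]
  exact (pow_le_pow_iff_right₀ (by norm_num)).mp h4

/-- A step not of Fibonacci type is `Theta`, or the step two before is. -/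
theorem Sq.theta_of_nonfib (h : Sq m x) {i : ℕ} (hi : 3 ≤ i) (him : i + 1 < m)
    (hne : x (i + 1) ≠ x i + x (i - 1)) : Theta x i ∨ Theta x (i - 2) := by
  by_contra hcon
  push Not at hcon
  obtain ⟨h1, h2⟩ := hcon
  unfold Theta at h1 h2
  push Not at h1 h2
  have hφ := Real.goldenRatio_pos
  have hx1 := h.le_add' (by omega) him hne
  rw [Phi_succ x i] at h1
  rw [show i - 2 + 1 = i - 1 by omega] at h2
  have h3 : Phi x (i - 1) = φ * (Phi x (i - 2) - ((x (i - 2) : ℝ) + x (i - 3) - x (i - 1))) := by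
    have := Phi_succ x (i - 2)
    rw [show i - 2 + 1 = i - 1 by omega, show i - 2 - 1 = i - 3 by omega] at this
    exact this
  rw [h3] at h2
  have h4 : (x (i + 1) : ℝ) ≤ x i + x (i - 2) := by exact_mod_cast hx1
  have a1 : x (i - 1 + 1) ≤ 2 * x (i - 1) := h.le_two_mul (by omega)
  have a2 : x (i - 2 + 1) ≤ 2 * x (i - 2) := h.le_two_mul (by omega)
  have a3 : x (i - 3 + 1) ≤ 2 * x (i - 3) := h.le_two_mul (by omega)
  rw [show i - 1 + 1 = i by omega] at a1
  rw [show i - 2 + 1 = i - 1 by omega] at a2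
  rw [show i - 3 + 1 = i - 2 by omega] at a3
  have b1 : (x i : ℝ) ≤ 8 * x (i - 3) := by
    have : x i ≤ 8 * x (i - 3) := by omega
    exact_mod_cast this
  have b2 : (x (i - 1) : ℝ) ≤ 4 * x (i - 3) := by
    have : x (i - 1) ≤ 4 * x (i - 3) := by omega
    exact_mod_cast this
  -- bounds
  have c1 : 42 / 41 * (Phi x i - ((x i : ℝ) + x (i - 1) - x (i + 1))) > Phi x i := by
    have : φ * Phi x i < φ * (42 / 41 * (Phi x i - ((x i : ℝ) + x (i - 1) - x (i + 1)))) := by
      linarith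
    exact lt_of_mul_lt_mul_left this hφ.le
  have c2 : 42 / 41 * (Phi x (i - 2) - ((x (i - 2) : ℝ) + x (i - 3) - x (i - 1))) > Phi x (i - 2) := by
    have : φ * Phi x (i - 2) < φ * (42 / 41 * (Phi x (i - 2) -
        ((x (i - 2) : ℝ) + x (i - 3) - x (i - 1)))) := by linarith
    exact lt_of_mul_lt_mul_left this hφ.le
  have d1 : Phi x i ≤ 17 * x (i - 3) := by
    unfold Phi
    have := phi_hi
    have hx3 : (0 : ℝ) ≤ (x (i - 3) : ℝ) := Nat.cast_nonneg _
    nlinarith
  have d2 : Phi x (i - 2) ≤ Phi x i := by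
    have e1 := h.Phi_mono (i := i - 2) (by omega) (by omega)
    have e2 := h.Phi_mono (i := i - 1) (by omega) (by omega)
    rw [show i - 2 + 1 = i - 1 by omega] at e1
    rw [show i - 1 + 1 = i by omega] at e2
    exact e1.trans e2
  have hx3 : (1 : ℝ) ≤ (x (i - 3) : ℝ) := by exact_mod_cast h.pos (i := i - 3) (by omega)
  nlinarith

/-- Number of steps which are not of Fibonacci type. -/
theorem Sq.nonfib_le (h : Sq m x) {n : ℕ} (hn : 2 ≤ n) (hk : Nat.fib n ≤ x (m - 1)) :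
    ((Ico 1 (m - 1)).filter (fun i => x (i + 1) ≠ x i + x (i - 1))).card
      ≤ 2 + 42 * (m + 1 - n) := by
  have h1 := h.theta_le hn hk
  set Θ := (Ico 1 (m - 1)).filter (Theta x) with hΘ
  have hsub : (Ico 1 (m - 1)).filter (fun i => x (i + 1) ≠ x i + x (i - 1))
      ⊆ ({1, 2} : Finset ℕ) ∪ (Θ ∪ Θ.image (· + 2)) := by
    intro i hi
    rw [Finset.mem_filter, Finset.mem_Ico] at hi
    rcases Nat.lt_or_ge i 3 with h3 | h3
    · apply Finset.mem_union_left
      simp only [Finset.mem_insert, Finset.mem_singleton]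
      omega
    · apply Finset.mem_union_right
      rcases h.theta_of_nonfib h3 (by omega) hi.2 with h4 | h4
      · apply Finset.mem_union_left
        rw [hΘ, Finset.mem_filter, Finset.mem_Ico]
        exact ⟨by omega, h4⟩
      · apply Finset.mem_union_right
        rw [Finset.mem_image]
        refine ⟨i - 2, ?_, by omega⟩
        rw [hΘ, Finset.mem_filter, Finset.mem_Ico]
        exact ⟨by omega, h4⟩
  have h2 := Finset.card_le_card hsub
  have h3 := Finset.card_union_le ({1, 2} : Finset ℕ) (Θ ∪ Θ.image (· + 2))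
  have h4 := Finset.card_union_le Θ (Θ.image (· + 2))
  have h5 : (Θ.image (· + 2)).card ≤ Θ.card := Finset.card_image_le
  have h6 : ({1, 2} : Finset ℕ).card = 2 := by decide
  omega

/-- The value described by a pair of offsets. -/
def val (x : ℕ → ℕ) (i p q : ℕ) : ℕ := if p < q then x (i - p) + x (i - q) else x i

/-- The offsets `p, q` describe the step `i → i+1`. -/
def NearData (K : ℕ) (x : ℕ → ℕ) (i p q : ℕ) : Prop :=
  p ≤ K ∧ q ≤ K ∧ p ≤ i ∧ q ≤ i ∧ x (i + 1) = val x i p q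

/-- A far step. -/
def Far (K : ℕ) (x : ℕ → ℕ) (i : ℕ) : Prop :=
  x (i + 1) ≠ x i + x (i - 1) ∧ ¬ ∃ p q, NearData K x i p q

noncomputable instance (K : ℕ) (x : ℕ → ℕ) : DecidablePred (Far K x) := fun _ => Classical.propDecidable _

theorem Sq.far_pair (h : Sq m x) {K i : ℕ} (him : i + 1 < m) (hf : Far K x i) :
    x i < x (i + 1) ∧ ∃ a b, b < a ∧ a ≤ i ∧ b + K < i ∧ x (i + 1) = x a + x b := by
  have hle := h.mono i (i + 1) (by omega) him
  have hne : x (i + 1) ≠ x i := by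
    intro heq
    exact hf.2 ⟨0, 0, Nat.zero_le _, Nat.zero_le _, Nat.zero_le _, Nat.zero_le _, by
      simp [val, heq]⟩
  have hlt : x i < x (i + 1) := by omega
  refine ⟨hlt, ?_⟩
  have hpos := h.pos (i := i) (by omega)
  obtain ⟨a, b, hab, hai, hs⟩ := h.step _ him (by omega)
  refine ⟨a, b, hab, by omega, ?_, hs⟩
  by_contra hcon
  push Not at hcon
  exact hf.2 ⟨i - a, i - b, by omega, by omega, by omega, by omega, by
    unfold val
    rw [if_pos (by omega), show i - (i - a) = a by omega, show i - (i - b) = b by omega]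
    exact hs⟩

theorem Sq.far_window (h : Sq m x) {c μ : ℝ} {K B : ℕ} (hc1 : 1 < c) (hc2 : c ≤ 1.3091)
    (hμ : 0 < μ) (hcμ : c * (φ + 1 + μ * φ) ≤ φ * (φ + 1 / 2)) (hB : 1 / μ < 1.23 ^ (B + 1))
    {i : ℕ} (hi : 1 ≤ i) (him : i + 1 < m) (hf : Far K x i) (hl : ¬ Lossy c x i) :
    K < i ∧ ((Ico (i - K) i).filter (fun j => ¬ Lossy c x j)).card ≤ B := by
  obtain ⟨hlt, a, b, hab, hai, hbK, hs⟩ := h.far_pair him hf
  refine ⟨by omega, ?_⟩
  have hφ := Real.goldenRatio_pos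
  have hφ1 := phi_lo
  have hφ2 := phi_hi
  have hsq := Real.goldenRatio_sq
  have hxi : (x i : ℝ) ≤ 2 * x (i - 1) := by
    have := h.le_two_mul (i := i - 1) (by omega)
    rw [show i - 1 + 1 = i by omega] at this
    exact_mod_cast this
  have hx1 : (1 : ℝ) ≤ (x i : ℝ) := by exact_mod_cast h.pos (i := i) (by omega)
  have hsum : (x (i + 1) : ℝ) ≤ x i + x b := by
    have h1 := h.mono a i hai (by omega)
    have : x (i + 1) ≤ x i + x b := by omega
    exact_mod_cast this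
  -- x b is comparable with x i
  have hcomp : μ * (x i : ℝ) < x b := by
    by_contra hcon
    push Not at hcon
    apply hl
    unfold Lossy Phi
    simp only [Nat.add_sub_cancel]
    have e1 : (x (i + 1) : ℝ) ≤ (1 + μ) * x i := by linarith
    have e2 : φ * (x (i + 1) : ℝ) + x i ≤ (φ + 1 + μ * φ) * x i := by nlinarith
    calc c * (φ * (x (i + 1) : ℝ) + x i) ≤ c * ((φ + 1 + μ * φ) * x i) :=
          mul_le_mul_of_nonneg_left e2 (by linarith)
      _ = (c * (φ + 1 + μ * φ)) * x i := by ring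
      _ ≤ (φ * (φ + 1 / 2)) * x i := mul_le_mul_of_nonneg_right hcμ (by linarith)
      _ = φ * (φ * x i + (1 / 2) * x i) := by ring
      _ ≤ φ * (φ * x i + x (i - 1)) := mul_le_mul_of_nonneg_left (by linarith) hφ.le
  have hPhi : Phi x i ≤ (1 / μ) * Phi x (i - K) := by
    have h1 : Phi x i ≤ (φ + 1) * x i := by
      unfold Phi
      have : (x (i - 1) : ℝ) ≤ x i := by exact_mod_cast h.mono _ _ (by omega) (by omega)
      linarith
    have h2 : (φ + 1) * (x b : ℝ) ≤ Phi x (i - K) := by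
      unfold Phi
      have e1 : (x b : ℝ) ≤ x (i - K) := by exact_mod_cast h.mono _ _ (by omega) (by omega)
      have e2 : (x b : ℝ) ≤ x (i - K - 1) := by exact_mod_cast h.mono _ _ (by omega) (by omega)
      nlinarith
    have h3 : (x i : ℝ) ≤ (1 / μ) * x b := by
      rw [div_mul_eq_mul_div, le_div_iff₀ hμ]
      linarith
    calc Phi x i ≤ (φ + 1) * x i := h1
      _ ≤ (φ + 1) * ((1 / μ) * x b) := mul_le_mul_of_nonneg_left h3 (by linarith)
      _ = (1 / μ) * ((φ + 1) * x b) := by ring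
      _ ≤ (1 / μ) * Phi x (i - K) := mul_le_mul_of_nonneg_left h2 (by positivity)
  have hpos : 0 < Phi x (i - K) := h.Phi_pos (by omega)
  have hw := h.window_pow 1.23 (by norm_num) (fun j => ¬ Lossy c x j) (by
    intro j hj hjm hnl
    unfold Lossy at hnl
    push Not at hnl
    have h1 := h.Phi_pos (i := j) (by omega)
    have h2 := h.Phi_pos (i := j + 1) (by omega)
    have h3 : φ * Phi x j < 1.3091 * Phi x (j + 1) :=
      lt_of_lt_of_le hnl (mul_le_mul_of_nonneg_right hc2 h2.le)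
    nlinarith) (i - K) (by omega) i (by omega) (by omega)
  by_contra hcon
  push Not at hcon
  have h1 : (1.23 : ℝ) ^ (B + 1) ≤ (1.23 : ℝ) ^ ((Ico (i - K) i).filter (fun j => ¬ Lossy c x j)).card :=
    pow_le_pow_right₀ (by norm_num) hcon
  have h2 : (1.23 : ℝ) ^ (B + 1) * Phi x (i - K) ≤ (1 / μ) * Phi x (i - K) :=
    (mul_le_mul_of_nonneg_right h1 hpos.le).trans (hw.trans hPhi)
  have h3 : (1.23 : ℝ) ^ (B + 1) ≤ 1 / μ := le_of_mul_le_mul_right h2 hpos
  linarith

end Pool.Agent.ElemSeq
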