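import Pool.Agent.ElemSeq.SharpRep

/-! Assembly of the sharp construction. -/

namespace Pool.Agent.ElemSeq

open Finset

theorem four_fib_le (R : ℕ) (hR : 15 ≤ R) : 4 * Nat.fib (R + 6) < 2 ^ (R + 1) := by
  induction R, hR using Nat.le_induction with
  | base => decide +kernel
  | succ R hR ih =>
    have h1 : Nat.fib (R + 1 + 6) = Nat.fib (R + 5) + Nat.fib (R + 5 + 1) := by
      rw [show R + 1 + 6 = R + 5 + 2 by ring, Nat.fib_add_two]
    have h2 : Nat.fib (R + 5) ≤ Nat.fib (R + 6) := Nat.fib_mono (by omega)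
    have h3 : 2 ^ (R + 1 + 1) = 2 * 2 ^ (R + 1) := by ring
    rw [h1, h3]
    rw [show R + 5 + 1 = R + 6 by ring]
    omega

theorem not_fib_dvd (q p : ℕ) (hq : 3 ≤ q) (h1 : q < p) (h2 : p < 2 * q) :
    ¬ Nat.fib q ∣ Nat.fib p := by
  intro hdvd
  have hg : Nat.fib (Nat.gcd q p) = Nat.gcd (Nat.fib q) (Nat.fib p) := Nat.fib_gcd q p
  rw [Nat.gcd_eq_left hdvd] at hg
  have hle : Nat.gcd q p ≤ q := Nat.gcd_le_left p (by omega)
  have heq : Nat.gcd q p = q := by
    by_contra hne
    have hlt : Nat.gcd q p ≤ q - 1 := by omega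
    have h3 : Nat.fib (Nat.gcd q p) ≤ Nat.fib (q - 1) := Nat.fib_mono hlt
    have h4 : Nat.fib (q - 1) < Nat.fib (q - 1 + 1) := Nat.fib_lt_fib_succ (by omega)
    rw [show q - 1 + 1 = q by omega] at h4
    omega
  have hd : q ∣ p := heq ▸ Nat.gcd_dvd_right q p
  obtain ⟨c, hc⟩ := hd
  have : c = 1 ∨ c = 0 ∨ 2 ≤ c := by omega
  rcases this with rfl | rfl | h
  · omega
  · omega
  · have : 2 * q ≤ q * c := by rw [Nat.mul_comm q c]; exact Nat.mul_le_mul_right q h
    omega

/-- The sharp construction. -/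
theorem sharp_rep (R h b p k : ℕ) (hR : 15 ≤ R) (hh : 1 ≤ h)
    (hb : Nat.fib (b + 2) ≤ 2 ^ (R * h - 1)) (hb2 : 2 ^ R < Nat.fib (b + 1)) (hb3 : 3 ≤ b)
    (hq1 : 1 + (R - 1) * b + 5 ≤ p) (hq2 : p ≤ 1 + (R - 1) * b + R + 3)
    (hq3 : p < 2 * (1 + (R - 1) * b))
    (hk1 : 2 ^ (R * h + 1) * Nat.fib p ≤ k) (hk2 : k < 2 ^ (R * h + 1) * Nat.fib (p + 1)) :
    e k ≤ p + R * 2 ^ (R + 1) + 2 * (R * h) := by
  set s := R * h with hs
  have hs1 : R ≤ s := by rw [hs]; exact Nat.le_mul_of_pos_right _ (by omega)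
  set q0 := 1 + (R - 1) * b with hq0
  set Y : ℕ → ℕ := fun r => Nat.fib (1 + r * b) with hY
  have hYpos : ∀ r, 0 < Y r := fun r => Nat.fib_pos.mpr (by omega)
  have hY0 : Y 0 = 1 := by simp [hY]
  have hYstep : ∀ r, Y (r + 1) ≤ 2 ^ (s - 1) * Y r := by
    intro r
    have h1 := fib_add_le (1 + r * b) b (by omega)
    have h2 : 1 + r * b + b = 1 + (r + 1) * b := by ring
    rw [h2] at h1
    calc Y (r + 1) ≤ Nat.fib (1 + r * b) * Nat.fib (b + 2) := h1
      _ ≤ Nat.fib (1 + r * b) * 2 ^ (s - 1) := Nat.mul_le_mul_left _ hb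
      _ = 2 ^ (s - 1) * Y r := by rw [Nat.mul_comm]
  have hYmono : ∀ r r', r ≤ r' → Y r ≤ Y r' := fun r r' hr =>
    Nat.fib_mono (by have := Nat.mul_le_mul_right b hr; omega)
  have hYtop : Y (R - 1) = Nat.fib q0 := rfl
  have hfp : Nat.fib q0 ≤ Nat.fib p := Nat.fib_mono (by omega)
  -- the units
  set v : ℕ → ℕ := fun t => 2 ^ (t / h + R * (t % h)) * Y (t / h) with hv
  have hvpos : ∀ t, 0 < v t := fun t => Nat.mul_pos (by positivity) (hYpos _)
  have hv0 : v 0 = 1 := by simp [hv, hY0]
  have hvstep : ∀ t, v (t + 1) ≤ 2 ^ R * v t := by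
    intro t
    have hmod := Nat.mod_lt t (show 0 < h by omega)
    have hdm := Nat.div_add_mod t h
    rcases Nat.lt_or_ge (t % h + 1) h with hc | hc
    · have hd : (t + 1) / h = t / h := by
        have : t + 1 = h * (t / h) + (t % h + 1) := by omega
        conv_lhs => rw [this]
        rw [Nat.mul_add_div (by omega), Nat.div_eq_of_lt hc, Nat.add_zero]
      have hm : (t + 1) % h = t % h + 1 := by
        have : t + 1 = h * (t / h) + (t % h + 1) := by omega
        conv_lhs => rw [this]
        rw [Nat.mul_add_mod, Nat.mod_eq_of_lt hc]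
      simp only [hv, hd, hm]
      apply le_of_eq
      ring
    · have hmh : t % h = h - 1 := by omega
      have ht1 : t + 1 = h * (t / h + 1) := by
        rw [Nat.mul_add]; omega
      have hd : (t + 1) / h = t / h + 1 := by
        rw [ht1, Nat.mul_div_cancel_left _ (show 0 < h by omega)]
      have hm : (t + 1) % h = 0 := by
        rw [ht1]; exact Nat.mul_mod_right _ _
      simp only [hv, hd, hm, hmh, Nat.mul_zero, Nat.add_zero]
      have h1 := hYstep (t / h)
      have h2 : R * (h - 1) + R = s := by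
        rw [hs]
        obtain ⟨h', rfl⟩ : ∃ h', h = h' + 1 := ⟨h - 1, by omega⟩
        simp only [Nat.add_sub_cancel]; ring
      calc 2 ^ (t / h + 1) * Y (t / h + 1) ≤ 2 ^ (t / h + 1) * (2 ^ (s - 1) * Y (t / h)) :=
            Nat.mul_le_mul_left _ h1
        _ = 2 ^ (t / h + s) * Y (t / h) := by
            rw [← mul_assoc, ← pow_add]; congr 2; omega
        _ = 2 ^ R * (2 ^ (t / h + R * (h - 1)) * Y (t / h)) := by
            rw [← mul_assoc, ← pow_add]; congr 2; omega
  have hvtop : v (s - 1) = 2 ^ (s - 1) * Nat.fib q0 := by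
    have h0 : s - 1 = h * (R - 1) + (h - 1) := by
      rw [hs]
      obtain ⟨h', rfl⟩ : ∃ h', h = h' + 1 := ⟨h - 1, by omega⟩
      obtain ⟨R', rfl⟩ : ∃ R', R = R' + 1 := ⟨R - 1, by omega⟩
      simp only [Nat.add_sub_cancel]
      have : (R' + 1) * (h' + 1) = (h' + 1) * R' + h' + 1 := by ring
      omega
    have hd : (s - 1) / h = R - 1 := by
      rw [h0, Nat.mul_add_div (by omega), Nat.div_eq_of_lt (by omega), Nat.add_zero]
    have hm : (s - 1) % h = h - 1 := by
      rw [h0, Nat.mul_add_mod, Nat.mod_eq_of_lt (by omega)]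
    simp only [hv, hd, hm]
    have h1 : R - 1 + R * (h - 1) = s - 1 := by
      rw [hs]
      obtain ⟨h', rfl⟩ : ∃ h', h = h' + 1 := ⟨h - 1, by omega⟩
      simp only [Nat.add_sub_cancel]
      have : R * (h' + 1) = R * h' + R := by ring
      omega
    rw [h1, hYtop]
  -- sum of units
  have hdivlt : ∀ i, i < s → i % R < R := fun i _ => Nat.mod_lt _ (by omega)
  have hvi : ∀ i, i < s → v ((i % R) * h + i / R) = 2 ^ i * Y (i % R) := by
    intro i hi
    have h1 : i / R < h := (Nat.div_lt_iff_lt_mul (by omega)).mpr (by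
      rw [hs, Nat.mul_comm] at hi; exact hi)
    have h3 : ((i % R) * h + i / R) / h = i % R := by
      rw [Nat.mul_comm, Nat.mul_add_div (by omega), Nat.div_eq_of_lt h1, Nat.add_zero]
    have h4 : ((i % R) * h + i / R) % h = i / R := by
      rw [Nat.mul_comm, Nat.mul_add_mod, Nat.mod_eq_of_lt h1]
    simp only [hv, h3, h4]
    rw [Nat.mod_add_div i R]
  have hsumv : ∑ t ∈ range s, v t ≤ 2 ^ s * Nat.fib p := by
    rw [hs, ← reindex R h (by omega) (by omega) v, ← hs]
    calc ∑ i ∈ range s, v ((i % R) * h + i / R) ≤ ∑ i ∈ range s, 2 ^ i * Nat.fib p := by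
          apply Finset.sum_le_sum
          intro i hi
          rw [Finset.mem_range] at hi
          rw [hvi i hi]
          apply Nat.mul_le_mul_left
          exact (hYmono _ _ (by have := hdivlt i hi; omega : i % R ≤ R - 1)).trans
            (hYtop ▸ hfp)
      _ = (∑ i ∈ range s, 2 ^ i) * Nat.fib p := by rw [Finset.sum_mul]
      _ ≤ 2 ^ s * Nat.fib p := by
          apply Nat.mul_le_mul_right
          have := Nat.geomSum_eq (m := 2) (le_refl 2) s
          rw [this]
          simp
  have h2s : 2 ^ (s + 1) * Nat.fib p = 2 ^ s * Nat.fib p + 2 ^ s * Nat.fib p := by ring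
  set τ := k - 2 ^ s * Nat.fib p - ∑ t ∈ range s, v t with hτ
  have hkτ : k = 2 ^ s * Nat.fib p + (τ + ∑ t ∈ range s, v t) := by omega
  obtain ⟨d, hd1, hd2, hd3⟩ := greedy v (2 ^ R) hv0 hvpos hvstep (s - 1) τ
  rw [show s - 1 + 1 = s by omega] at hd1
  -- top digit
  have htop : d (s - 1) + 1 ≤ 2 ^ (R + 1) := by
    rw [hd3, hvtop]
    have h1 : τ < 2 ^ (s + 1) * Nat.fib (p + 1) := by omega
    have h2 : Nat.fib (p + 1) ≤ Nat.fib q0 * Nat.fib (R + 6) := by
      have h3 := fib_add_le q0 (p + 1 - q0) (by omega)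
      rw [show q0 + (p + 1 - q0) = p + 1 by omega] at h3
      exact h3.trans (Nat.mul_le_mul_left _ (Nat.fib_mono (by omega)))
    have h4 : τ / (2 ^ (s - 1) * Nat.fib q0) < 4 * Nat.fib (R + 6) := by
      rw [Nat.div_lt_iff_lt_mul (by rw [← hvtop]; exact hvpos _)]
      calc τ < 2 ^ (s + 1) * Nat.fib (p + 1) := h1
        _ ≤ 2 ^ (s + 1) * (Nat.fib q0 * Nat.fib (R + 6)) := Nat.mul_le_mul_left _ h2
        _ = 4 * Nat.fib (R + 6) * (2 ^ (s - 1) * Nat.fib q0) := by
            have : 2 ^ (s + 1) = 4 * 2 ^ (s - 1) := by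
              rw [show s + 1 = (s - 1) + 2 by omega, pow_add]; ring
            rw [this]; ring
    have h5 := four_fib_le R hR
    omega
  set E : ℕ → ℕ := fun i => (d ((i % R) * h + i / R) + 1) * Y (i % R) with hE
  have hsumE : ∑ i ∈ range s, 2 ^ i * E i = τ + ∑ t ∈ range s, v t := by
    have h1 : ∑ i ∈ range s, 2 ^ i * E i
        = ∑ i ∈ range s, (d ((i % R) * h + i / R) + 1) * v ((i % R) * h + i / R) := by
      apply Finset.sum_congr rfl
      intro i hi
      rw [Finset.mem_range] at hi
      rw [hvi i hi, hE]; ring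
    have h2 := reindex R h (by omega) (by omega) (fun t => (d t + 1) * v t)
    rw [← hs] at h2
    rw [h1]
    refine h2.trans ?_
    rw [hd1, ← Finset.sum_add_distrib]
    apply Finset.sum_congr rfl
    intro t _; ring
  -- index of i
  have hidx : ∀ i, i < s → (i % R) * h + i / R < s := by
    intro i hi
    have h1 : i / R < h := (Nat.div_lt_iff_lt_mul (by omega)).mpr (by
      rw [hs, Nat.mul_comm] at hi; exact hi)
    have h2 : i % R < R := Nat.mod_lt _ (by omega)
    rw [hs]
    nlinarith
  have hidx2 : ∀ i, i < s → (i % R) * h + i / R = s - 1 → i = s - 1 := by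
    intro i hi heq
    have h1 := hvi i hi
    have h1 : i / R < h := (Nat.div_lt_iff_lt_mul (by omega)).mpr (by
      rw [hs, Nat.mul_comm] at hi; exact hi)
    have h2 : i % R < R := Nat.mod_lt _ (by omega)
    have h3 : i % R = R - 1 := by
      by_contra hne
      have h4 : i % R + 2 ≤ R := by omega
      have h5 : (i % R + 2) * h ≤ R * h := Nat.mul_le_mul_right h h4
      rw [← hs] at h5
      have : (i % R + 2) * h = i % R * h + h + h := by ring
      omega
    have h6 : i / R = h - 1 := by
      rw [h3] at heq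
      have h7 : (R - 1) * h + h = s := by
        rw [hs]
        obtain ⟨R', rfl⟩ : ∃ R', R = R' + 1 := ⟨R - 1, by omega⟩
        simp only [Nat.add_sub_cancel]; ring
      omega
    have h8 := Nat.mod_add_div i R
    rw [h3, h6] at h8
    have h9 : R * (h - 1) + R = s := by
      rw [hs]
      obtain ⟨h', rfl⟩ : ∃ h', h = h' + 1 := ⟨h - 1, by omega⟩
      simp only [Nat.add_sub_cancel]; ring
    omega
  have hdsmall : ∀ i, i < s - 1 → d ((i % R) * h + i / R) + 1 ≤ 2 ^ R := by
    intro i hi
    have h1 := hidx i (by omega)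
    have h2 : (i % R) * h + i / R ≠ s - 1 := fun heq => by
      have := hidx2 i (by omega) heq
      omega
    exact hd2 _ (by omega)
  have hdall : ∀ i, i < s → d ((i % R) * h + i / R) + 1 ≤ 2 ^ (R + 1) := by
    intro i hi
    rcases Nat.lt_or_ge i (s - 1) with h1 | h1
    · have := hdsmall i h1
      have h2 : 2 ^ R ≤ 2 ^ (R + 1) := Nat.pow_le_pow_right (by norm_num) (by omega)
      omega
    · have hi' : i = s - 1 := by omega
      have h2 : (i % R) * h + i / R ≤ s - 1 := by
        have := hidx i hi; omega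
      rcases Nat.lt_or_ge ((i % R) * h + i / R) (s - 1) with h3 | h3
      · have h4 := hd2 _ h3
        have h5 : 2 ^ R ≤ 2 ^ (R + 1) := Nat.pow_le_pow_right (by norm_num) (by omega)
        omega
      · rw [show (i % R) * h + i / R = s - 1 by omega]; exact htop
  -- the closed set
  have hqb : b ≤ (R - 1) * b := Nat.le_mul_of_pos_left _ (by omega)
  have hchain := closed_fib p (by omega)
  have hmemfib : ∀ j, 1 ≤ j → j ≤ p → Nat.fib j ∈ (Icc 2 p).image Nat.fib := by
    intro j hj1 hj2
    rcases Nat.lt_or_ge 1 j with h1 | h1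
    · exact Finset.mem_image_of_mem _ (by rw [Finset.mem_Icc]; omega)
    · have : j = 1 := by omega
      subst this
      rw [show Nat.fib 1 = Nat.fib 2 by decide]
      exact Finset.mem_image_of_mem _ (by rw [Finset.mem_Icc]; omega)
  have hrb : ∀ r < R, r * b ≤ (R - 1) * b := fun r hr => Nat.mul_le_mul_right b (by omega)
  obtain ⟨T, hT1, hT2, hT3, hT4⟩ := tables Y ((Icc 2 p).image Nat.fib) hchain (2 ^ (R + 1))
    (by
      have : 2 ^ 1 ≤ 2 ^ (R + 1) := Nat.pow_le_pow_right (by norm_num) (by omega)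
      simpa using this) R (by
      intro r hr
      have hr' := hrb r hr
      refine ⟨hYpos r, hmemfib _ (by omega) (by omega), ?_⟩
      rcases Nat.eq_zero_or_pos r with rfl | hr0
      · left
        rw [hY0, show 2 * 1 = Nat.fib 3 by decide]
        exact hmemfib 3 (by omega) (by omega)
      · right
        have hbr : b ≤ r * b := Nat.le_mul_of_pos_left _ hr0
        refine ⟨Nat.fib (1 + r * b - 2), hmemfib _ (by omega) (by omega),
          Nat.fib (1 + r * b + 1), hmemfib _ (by omega) (by omega), ?_, ?_⟩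
        · have h1 : Nat.fib (1 + r * b - 2) ≤ Nat.fib (1 + r * b) := Nat.fib_mono (by omega)
          have h2 := Nat.fib_lt_fib_succ (n := 1 + r * b) (by omega)
          omega
        · obtain ⟨c, hc⟩ : ∃ c, 1 + r * b = c + 2 := ⟨1 + r * b - 2, by omega⟩
          change 2 * Nat.fib (1 + r * b) = _
          rw [hc]
          simp only [Nat.add_sub_cancel]
          have e1 : Nat.fib (c + 2) = Nat.fib c + Nat.fib (c + 1) := Nat.fib_add_two
          have e2 : Nat.fib (c + 2 + 1) = Nat.fib (c + 1) + Nat.fib (c + 2) := by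
            rw [show c + 2 + 1 = c + 1 + 2 by ring, Nat.fib_add_two]
          omega)
  have hX : Nat.fib p ∈ T := hT1 (hmemfib p (by omega) (le_refl p))
  obtain ⟨U, hU1, hU2, hU3, hU4⟩ := doubling' s (by omega) T E (Nat.fib p) hT2 hX
    (by
      intro i hi
      exact hT4 (i % R) (Nat.mod_lt _ (by omega)) _ (by omega) (hdall i hi))
    (by
      -- top addition is not fib p
      intro heq
      have hmodtop : (s - 1) % R = R - 1 := by
        have h9 : s - 1 = R * (h - 1) + (R - 1) := by
          rw [hs]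
          obtain ⟨h', rfl⟩ : ∃ h', h = h' + 1 := ⟨h - 1, by omega⟩
          simp only [Nat.add_sub_cancel]
          have : R * (h' + 1) = R * h' + R := by ring
          omega
        rw [h9, Nat.mul_add_mod, Nat.mod_eq_of_lt (by omega)]
      have hdv : Nat.fib q0 ∣ Nat.fib p := by
        rw [← heq, hE]
        simp only [hmodtop]
        rw [hYtop]
        exact Dvd.intro_left _ rfl
      exact not_fib_dvd q0 p (by omega) (by omega) hq3 hdv)
    (by
      intro i hi
      have h1 := hdsmall i hi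
      have hmodlt := hdivlt i (by omega)
      change (d ((i % R) * h + i / R) + 1) * Y (i % R) < 2 ^ (s - 1 - i) * Nat.fib p
      rcases Nat.lt_or_ge (i % R) (R - 1) with h2 | h2
      · -- small table
        have h3 : Y (i % R) ≤ Y (R - 2) := hYmono _ _ (by omega)
        have h4 : 2 ^ R * Y (R - 2) < Nat.fib p := by
          have h5 : Nat.fib (1 + (R - 2) * b) * Nat.fib (b + 1) ≤ Nat.fib (1 + (R - 2) * b + b) :=
            fib_mul_le _ _ (by omega)
          have h6 : 1 + (R - 2) * b + b = q0 := by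
            rw [hq0]
            obtain ⟨R', rfl⟩ : ∃ R', R = R' + 2 := ⟨R - 2, by omega⟩
            simp only [Nat.add_sub_cancel, show R' + 2 - 1 = R' + 1 by omega]
            ring
          rw [h6] at h5
          calc 2 ^ R * Y (R - 2) < Nat.fib (b + 1) * Y (R - 2) :=
                Nat.mul_lt_mul_of_pos_right hb2 (hYpos _)
            _ = Nat.fib (1 + (R - 2) * b) * Nat.fib (b + 1) := by rw [Nat.mul_comm]
            _ ≤ Nat.fib q0 := h5
            _ ≤ Nat.fib p := hfp
        calc (d ((i % R) * h + i / R) + 1) * Y (i % R) ≤ 2 ^ R * Y (R - 2) := Nat.mul_le_mul h1 h3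
          _ < Nat.fib p := h4
          _ ≤ 2 ^ (s - 1 - i) * Nat.fib p := Nat.le_mul_of_pos_left _ (by positivity)
      · -- top table: i ≤ s - 1 - R
        have h3 : i % R = R - 1 := by omega
        have h4 : R ≤ s - 1 - i := by
          have h5 := Nat.mod_add_div i R
          rw [h3] at h5
          have h6 : i / R < h := (Nat.div_lt_iff_lt_mul (by omega)).mpr (by
            have : i < s := by omega
            rw [hs, Nat.mul_comm] at this; exact this)
          have h7 : i / R ≠ h - 1 := by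
            intro h8
            rw [h8] at h5
            have h9 : R * (h - 1) + R = s := by
              rw [hs]
              obtain ⟨h', rfl⟩ : ∃ h', h = h' + 1 := ⟨h - 1, by omega⟩
              simp only [Nat.add_sub_cancel]; ring
            omega
          have h10 : R * (i / R + 2) ≤ R * h := Nat.mul_le_mul_left R (by omega)
          rw [← hs] at h10
          have : R * (i / R + 2) = R * (i / R) + R + R := by ring
          omega
        have h5 : 2 ^ R ≤ 2 ^ (s - 1 - i) := Nat.pow_le_pow_right (by norm_num) h4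
        have h6 : Nat.fib q0 < Nat.fib p := by
          have h7 := Nat.fib_lt_fib_succ (n := q0) (by omega)
          have h8 : Nat.fib (q0 + 1) ≤ Nat.fib p := Nat.fib_mono (by omega)
          omega
        rw [h3, hYtop]
        rw [h3] at h1
        calc (d ((R - 1) * h + i / R) + 1) * Nat.fib q0 ≤ 2 ^ R * Nat.fib q0 :=
              Nat.mul_le_mul_right _ h1
          _ < 2 ^ R * Nat.fib p := Nat.mul_lt_mul_of_pos_left h6 (by positivity)
          _ ≤ 2 ^ (s - 1 - i) * Nat.fib p := Nat.mul_le_mul_right _ h5)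
  rw [hsumE, ← hkτ] at hU4
  have hcard : ((Icc 2 p).image Nat.fib).card ≤ p - 1 := by
    refine Finset.card_image_le.trans ?_
    rw [Nat.card_Icc]; omega
  have := hU2.e_le hU4
  omega

end Pool.Agent.ElemSeq
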