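import Pool.Agent.ElemSeq.Closed

/-! The sharp construction: Fibonacci chain, tables, and a final run of doublings. -/

namespace Pool.Agent.ElemSeq

open Finset

theorem fib_add_le (m c : ℕ) (hm : 1 ≤ m) : Nat.fib (m + c) ≤ Nat.fib m * Nat.fib (c + 2) := by
  obtain ⟨m', rfl⟩ : ∃ m', m = m' + 1 := ⟨m - 1, by omega⟩
  have h1 : Nat.fib (m' + c + 1) = Nat.fib m' * Nat.fib c + Nat.fib (m' + 1) * Nat.fib (c + 1) :=
    Nat.fib_add m' c
  have h2 : Nat.fib m' ≤ Nat.fib (m' + 1) := Nat.fib_le_fib_succ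
  have h3 : Nat.fib (c + 2) = Nat.fib c + Nat.fib (c + 1) := Nat.fib_add_two
  rw [show m' + 1 + c = m' + c + 1 by ring, h1, h3]
  nlinarith [Nat.mul_le_mul_right (Nat.fib c) h2]

theorem fib_mul_le (m c : ℕ) (hm : 1 ≤ m) : Nat.fib m * Nat.fib (c + 1) ≤ Nat.fib (m + c) := by
  obtain ⟨m', rfl⟩ : ∃ m', m = m' + 1 := ⟨m - 1, by omega⟩
  have h1 : Nat.fib (m' + c + 1) = Nat.fib m' * Nat.fib c + Nat.fib (m' + 1) * Nat.fib (c + 1) :=
    Nat.fib_add m' c
  rw [show m' + 1 + c = m' + c + 1 by ring, h1]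
  omega

/-- The Fibonacci chain. -/
theorem closed_fib (p : ℕ) (hp : 2 ≤ p) : Closed ((Icc 2 p).image Nat.fib) := by
  refine ⟨?_, ?_, ?_⟩
  · rw [Finset.mem_image]; exact ⟨2, by rw [Finset.mem_Icc]; omega, by decide⟩
  · intro s hs
    rw [Finset.mem_image] at hs
    obtain ⟨j, hj, rfl⟩ := hs
    rw [Finset.mem_Icc] at hj
    exact Nat.fib_pos.mpr (by omega)
  · intro s hs h2
    rw [Finset.mem_image] at hs
    obtain ⟨j, hj, rfl⟩ := hs
    rw [Finset.mem_Icc] at hj
    have hj4 : 4 ≤ j := by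
      by_contra hcon
      have h3 : Nat.fib j ≤ Nat.fib 3 := Nat.fib_mono (by omega)
      have h4 : Nat.fib 3 = 2 := by decide
      omega
    refine ⟨Nat.fib (j - 2), ?_, Nat.fib (j - 1), ?_, ?_, ?_⟩
    · exact Finset.mem_image_of_mem _ (by rw [Finset.mem_Icc]; omega)
    · exact Finset.mem_image_of_mem _ (by rw [Finset.mem_Icc]; omega)
    · have := Nat.fib_lt_fib_succ (n := j - 2) (by omega)
      rwa [show j - 2 + 1 = j - 1 by omega] at this
    · have h5 : Nat.fib (j - 2 + 2) = Nat.fib (j - 2) + Nat.fib (j - 2 + 1) := Nat.fib_add_two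
      rwa [show j - 2 + 2 = j by omega, show j - 2 + 1 = j - 1 by omega] at h5

/-- Adding a table of multiples of `Y`. -/
theorem table (Y : ℕ) (hY : 0 < Y) (S : Finset ℕ) (hS : Closed S) (hYS : Y ∈ S) (h2Y : 2 * Y ∈ S)
    (N : ℕ) : ∃ T : Finset ℕ, S ⊆ T ∧ Closed T ∧ T.card ≤ S.card + N ∧
      ∀ d, 1 ≤ d → d ≤ N + 2 → d * Y ∈ T := by
  induction N with
  | zero =>
    refine ⟨S, Finset.Subset.refl _, hS, by omega, ?_⟩
    intro d hd1 hd2
    rcases (show d = 1 ∨ d = 2 by omega) with rfl | rfl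
    · simpa using hYS
    · exact h2Y
  | succ N ih =>
    obtain ⟨T, hT1, hT2, hT3, hT4⟩ := ih
    have ha : Y ∈ T := hT1 hYS
    have hb : (N + 2) * Y ∈ T := hT4 _ (by omega) (by omega)
    have hlt : Y < (N + 2) * Y := by nlinarith
    refine ⟨insert (Y + (N + 2) * Y) T, hT1.trans (Finset.subset_insert _ _),
      hT2.insert_add ha hb hlt, ?_, ?_⟩
    · have := Finset.card_insert_le (Y + (N + 2) * Y) T
      omega
    · intro d hd1 hd2
      rcases Nat.lt_or_ge d (N + 3) with h | h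
      · exact Finset.mem_insert_of_mem (hT4 d hd1 (by omega))
      · have : d = N + 3 := by omega
        subst this
        rw [show (N + 3) * Y = Y + (N + 2) * Y by ring]
        exact Finset.mem_insert_self _ _

/-- A table whose double is a sum of two distinct elements. -/
theorem table' (Y : ℕ) (hY : 0 < Y) (S : Finset ℕ) (hS : Closed S) (hYS : Y ∈ S)
    (h2Y : 2 * Y ∈ S ∨ ∃ a ∈ S, ∃ b ∈ S, a < b ∧ 2 * Y = a + b)
    (N : ℕ) (hN : 2 ≤ N) : ∃ T : Finset ℕ, S ⊆ T ∧ Closed T ∧ T.card ≤ S.card + N ∧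
      ∀ d, 1 ≤ d → d ≤ N → d * Y ∈ T := by
  obtain ⟨S', hS1, hS2, hS3, hS4⟩ : ∃ S' : Finset ℕ, S ⊆ S' ∧ Closed S' ∧ S'.card ≤ S.card + 1 ∧
      2 * Y ∈ S' := by
    rcases h2Y with h | ⟨a, ha, b, hb, hab, he⟩
    · exact ⟨S, Finset.Subset.refl _, hS, by omega, h⟩
    · refine ⟨insert (a + b) S, Finset.subset_insert _ _, hS.insert_add ha hb hab,
        Finset.card_insert_le _ _, ?_⟩
      rw [he]; exact Finset.mem_insert_self _ _
  obtain ⟨T, hT1, hT2, hT3, hT4⟩ := table Y hY S' hS2 (hS1 hYS) hS4 (N - 2)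
  exact ⟨T, hS1.trans hT1, hT2, by omega, fun d h1 h2 => hT4 d h1 (by omega)⟩

/-- Adding `R` tables. -/
theorem tables (Y : ℕ → ℕ) (S : Finset ℕ) (hS : Closed S) (N : ℕ) (hN : 2 ≤ N) (R : ℕ)
    (hY : ∀ r < R, 0 < Y r ∧ Y r ∈ S ∧
      (2 * Y r ∈ S ∨ ∃ a ∈ S, ∃ b ∈ S, a < b ∧ 2 * Y r = a + b)) :
    ∃ T : Finset ℕ, S ⊆ T ∧ Closed T ∧ T.card ≤ S.card + R * N ∧
      ∀ r < R, ∀ d, 1 ≤ d → d ≤ N → d * Y r ∈ T := by
  induction R with
  | zero => exact ⟨S, Finset.Subset.refl _, hS, by simp, fun r hr => absurd hr (Nat.not_lt_zero r)⟩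
  | succ R ih =>
    obtain ⟨T, hT1, hT2, hT3, hT4⟩ := ih (fun r hr => hY r (by omega))
    obtain ⟨h1, h2, h3⟩ := hY R (Nat.lt_succ_self R)
    have h3' : 2 * Y R ∈ T ∨ ∃ a ∈ T, ∃ b ∈ T, a < b ∧ 2 * Y R = a + b := by
      rcases h3 with h | ⟨a, ha, b, hb, hab, he⟩
      · exact Or.inl (hT1 h)
      · exact Or.inr ⟨a, hT1 ha, b, hT1 hb, hab, he⟩
    obtain ⟨U, hU1, hU2, hU3, hU4⟩ := table' (Y R) h1 T hT2 (hT1 h2) h3' N hN
    refine ⟨U, hT1.trans hU1, hU2, ?_, ?_⟩
    · have : (R + 1) * N = R * N + N := by ring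
      omega
    · intro r hr d hd1 hd2
      rcases Nat.lt_or_ge r R with h | h
      · exact hU1 (hT4 r h d hd1 hd2)
      · have : r = R := by omega
        subst this
        exact hU4 d hd1 hd2

/-- Doubling steps with additions, all additions smaller than the current term. -/
theorem doubling (s : ℕ) : ∀ (S : Finset ℕ) (E : ℕ → ℕ) (X : ℕ), Closed S → X ∈ S →
    (∀ i < s, E i ∈ S) → (∀ i < s, E i < 2 ^ (s - 1 - i) * X) →
    ∃ T : Finset ℕ, S ⊆ T ∧ Closed T ∧ T.card ≤ S.card + 2 * s ∧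
      2 ^ s * X + ∑ i ∈ range s, 2 ^ i * E i ∈ T := by
  induction s with
  | zero =>
    intro S E X hS hX _ _
    exact ⟨S, Finset.Subset.refl _, hS, by simp, by simpa using hX⟩
  | succ s ih =>
    intro S E X hS hX hE hlt
    have hEs := hE s (Nat.lt_succ_self s)
    have hltX : E s < X := by
      have := hlt s (Nat.lt_succ_self s)
      simpa using this
    have hEp := hS.pos _ hEs
    have hS1 := hS.insert_add hEs hX hltX
    have hS2 := hS1.insert_add (Finset.mem_insert_of_mem hX)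
      (Finset.mem_insert_self (E s + X) S) (by omega)
    set S2 := insert (X + (E s + X)) (insert (E s + X) S) with hS2def
    have hsub : S ⊆ S2 := (Finset.subset_insert _ _).trans (Finset.subset_insert _ _)
    obtain ⟨T, hT1, hT2, hT3, hT4⟩ := ih S2 E (X + (E s + X)) hS2 (Finset.mem_insert_self _ _)
      (fun i hi => hsub (hE i (by omega))) (by
        intro i hi
        have h1 := hlt i (by omega)
        have h2 : s + 1 - 1 - i = (s - 1 - i) + 1 := by omega
        rw [h2, pow_succ] at h1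
        have h3 : 2 ^ (s - 1 - i) * 2 * X ≤ 2 ^ (s - 1 - i) * (X + (E s + X)) := by
          rw [mul_assoc]
          exact Nat.mul_le_mul_left _ (by omega)
        omega)
    refine ⟨T, hsub.trans hT1, hT2, ?_, ?_⟩
    · have h1 := Finset.card_insert_le (X + (E s + X)) (insert (E s + X) S)
      have h2 := Finset.card_insert_le (E s + X) S
      rw [← hS2def] at h1
      omega
    · have : 2 ^ (s + 1) * X + ∑ i ∈ range (s + 1), 2 ^ i * E i
          = 2 ^ s * (X + (E s + X)) + ∑ i ∈ range s, 2 ^ i * E i := by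
        rw [Finset.sum_range_succ]; ring
      rw [this]; exact hT4

/-- First doubling step, where the addition only has to be different from the current term. -/
theorem doubling' (s : ℕ) (hs : 1 ≤ s) (S : Finset ℕ) (E : ℕ → ℕ) (X : ℕ) (hS : Closed S)
    (hX : X ∈ S) (hE : ∀ i < s, E i ∈ S) (hne : E (s - 1) ≠ X)
    (hlt : ∀ i < s - 1, E i < 2 ^ (s - 1 - i) * X) :
    ∃ T : Finset ℕ, S ⊆ T ∧ Closed T ∧ T.card ≤ S.card + 2 * s ∧
      2 ^ s * X + ∑ i ∈ range s, 2 ^ i * E i ∈ T := by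
  obtain ⟨s, rfl⟩ : ∃ s', s = s' + 1 := ⟨s - 1, by omega⟩
  simp only [Nat.add_sub_cancel] at hne hlt
  have hEs := hE s (Nat.lt_succ_self s)
  have hEp := hS.pos _ hEs
  have hXp := hS.pos _ hX
  have hS1 : Closed (insert (E s + X) S) := by
    rcases Nat.lt_or_gt_of_ne hne with h | h
    · exact hS.insert_add hEs hX h
    · have := hS.insert_add hX hEs h
      rwa [Nat.add_comm] at this
  have hS2 := hS1.insert_add (Finset.mem_insert_of_mem hX)
      (Finset.mem_insert_self (E s + X) S) (by omega)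
  set S2 := insert (X + (E s + X)) (insert (E s + X) S) with hS2def
  have hsub : S ⊆ S2 := (Finset.subset_insert _ _).trans (Finset.subset_insert _ _)
  obtain ⟨T, hT1, hT2, hT3, hT4⟩ := doubling s S2 E (X + (E s + X)) hS2 (Finset.mem_insert_self _ _)
      (fun i hi => hsub (hE i (by omega))) (by
        intro i hi
        have h1 := hlt i (by omega)
        have h2 : s - i = (s - 1 - i) + 1 := by omega
        rw [h2, pow_succ] at h1
        have h3 : 2 ^ (s - 1 - i) * 2 * X ≤ 2 ^ (s - 1 - i) * (X + (E s + X)) := by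
          rw [mul_assoc]
          exact Nat.mul_le_mul_left _ (by omega)
        omega)
  refine ⟨T, hsub.trans hT1, hT2, ?_, ?_⟩
  · have h1 := Finset.card_insert_le (X + (E s + X)) (insert (E s + X) S)
    have h2 := Finset.card_insert_le (E s + X) S
    rw [← hS2def] at h1
    omega
  · have : 2 ^ (s + 1) * X + ∑ i ∈ range (s + 1), 2 ^ i * E i
        = 2 ^ s * (X + (E s + X)) + ∑ i ∈ range s, 2 ^ i * E i := by
      rw [Finset.sum_range_succ]; ring
    rw [this]; exact hT4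

/-- Greedy expansion. -/
theorem greedy (v : ℕ → ℕ) (B : ℕ) (hv0 : v 0 = 1) (hpos : ∀ t, 0 < v t)
    (hv : ∀ t, v (t + 1) ≤ B * v t) (s : ℕ) :
    ∀ τ : ℕ, ∃ d : ℕ → ℕ, τ = ∑ t ∈ range (s + 1), d t * v t ∧ (∀ t < s, d t < B) ∧
      d s = τ / v s := by
  induction s with
  | zero =>
    intro τ
    exact ⟨fun _ => τ, by simp [hv0], fun t ht => absurd ht (Nat.not_lt_zero t), by simp [hv0]⟩
  | succ s ih =>
    intro τ
    obtain ⟨d, hd1, hd2, hd3⟩ := ih (τ % v (s + 1))
    have hlt : τ % v (s + 1) < B * v s := lt_of_lt_of_le (Nat.mod_lt _ (hpos _)) (hv s)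
    refine ⟨fun t => if t = s + 1 then τ / v (s + 1) else d t, ?_, ?_, by simp⟩
    · rw [Finset.sum_range_succ]
      have h1 : ∑ t ∈ range (s + 1), (if t = s + 1 then τ / v (s + 1) else d t) * v t
          = ∑ t ∈ range (s + 1), d t * v t := by
        apply Finset.sum_congr rfl
        intro t ht
        rw [Finset.mem_range] at ht
        rw [if_neg (by omega)]
      rw [h1, ← hd1]
      simp only [if_true]
      exact (Nat.mod_add_div' τ (v (s + 1))).symm
    · intro t ht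
      simp only
      rw [if_neg (by omega)]
      rcases Nat.lt_or_ge t s with h | h
      · exact hd2 t h
      · have : t = s := by omega
        subst this
        rw [hd3]
        exact (Nat.div_lt_iff_lt_mul (hpos _)).mpr hlt

/-- Reindexing `t ↦ t / h + R (t % h)`. -/
theorem reindex (R h : ℕ) (hR : 0 < R) (hh : 0 < h) (F : ℕ → ℕ) :
    ∑ i ∈ range (R * h), F ((i % R) * h + i / R) = ∑ t ∈ range (R * h), F t := by
  apply Finset.sum_nbij' (i := fun i => (i % R) * h + i / R) (j := fun t => t / h + R * (t % h))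
  · intro i hi
    rw [Finset.mem_range] at hi
    rw [Finset.mem_range]
    have h1 : i / R < h := (Nat.div_lt_iff_lt_mul hR).mpr (by rw [Nat.mul_comm] at hi; exact hi)
    have h2 : i % R < R := Nat.mod_lt _ hR
    nlinarith
  · intro t ht
    rw [Finset.mem_range] at ht
    rw [Finset.mem_range]
    have h1 : t / h < R := (Nat.div_lt_iff_lt_mul hh).mpr ht
    have h2 : t % h < h := Nat.mod_lt _ hh
    nlinarith
  · intro i hi
    rw [Finset.mem_range] at hi
    have h1 : i / R < h := (Nat.div_lt_iff_lt_mul hR).mpr (by rw [Nat.mul_comm] at hi; exact hi)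
    have h3 : ((i % R) * h + i / R) / h = i % R := by
      rw [Nat.mul_comm, Nat.mul_add_div hh, Nat.div_eq_of_lt h1, Nat.add_zero]
    have h4 : ((i % R) * h + i / R) % h = i / R := by
      rw [Nat.mul_comm, Nat.mul_add_mod, Nat.mod_eq_of_lt h1]
    rw [h3, h4]
    exact Nat.mod_add_div i R
  · intro t ht
    rw [Finset.mem_range] at ht
    have h1 : t / h < R := (Nat.div_lt_iff_lt_mul hh).mpr ht
    have h3 : (t / h + R * (t % h)) / R = t % h := by
      rw [Nat.add_mul_div_left _ _ hR, Nat.div_eq_of_lt h1, Nat.zero_add]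
    have h4 : (t / h + R * (t % h)) % R = t / h := by
      rw [Nat.add_mul_mod_self_left, Nat.mod_eq_of_lt h1]
    rw [h3, h4]
    rw [Nat.mul_comm]
    exact Nat.div_add_mod t h
  · intro i _
    rfl

end Pool.Agent.ElemSeq
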