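import Pool.Agent.ElemSeq.SharpAsm
import Pool.Agent.ElemSeq.Golden

/-! Asymptotics of the sharp upper bound. -/

namespace Pool.Agent.ElemSeq

open Real Filter
open scoped goldenRatio

/-- The constant `log (φ² / 2)`. -/
theorem cstar_eq : Real.log (φ ^ 2 / 2) = 2 * Real.log φ - Real.log 2 := by
  rw [Real.log_div (by positivity) (by norm_num), Real.log_pow]
  push_cast; ring

theorem pow_two_lt_fib (m : ℕ) : 2 ^ m < Nat.fib (2 * m + 3) := by
  induction m with
  | zero => decide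
  | succ m ih =>
    have h1 : Nat.fib (2 * (m + 1) + 3) = Nat.fib (2 * m + 3) + Nat.fib (2 * m + 3 + 1) := by
      rw [show 2 * (m + 1) + 3 = 2 * m + 3 + 2 by ring, Nat.fib_add_two]
    have h2 : Nat.fib (2 * m + 3) ≤ Nat.fib (2 * m + 3 + 1) := Nat.fib_le_fib_succ
    have h3 : 2 ^ (m + 1) = 2 * 2 ^ m := by ring
    omega

theorem sharp_param (n R k : ℕ) (hR : 15 ≤ R) (hn : 100 * R ^ 2 ≤ n)
    (hk1 : Nat.fib n < k) (hk2 : k < Nat.fib (n + 1)) :
    (e k : ℝ) ≤ n + Real.log (φ ^ 2 / 2) * n / ((R - 1) * Real.log 2) + (R + 4 + R * 2 ^ (R + 1)) := by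
  set ℓ := Real.log φ with hℓ
  set g := Real.log 2 with hg
  have hℓ1 : 0.481 < ℓ := log_phi_lo
  have hℓ2 : ℓ < 0.4813 := log_phi_hi
  have hg1 : 0.693147 < g := by have := Real.log_two_gt_d9; linarith
  have hg2 : g < 0.693148 := by have := Real.log_two_lt_d9; linarith
  have hRr : (15 : ℝ) ≤ R := by exact_mod_cast hR
  have hnr : 100 * (R : ℝ) ^ 2 ≤ n := by exact_mod_cast hn
  have hφ := Real.goldenRatio_pos
  set A : ℝ := (n + R) * ℓ / ((R - 1) * g) with hA
  have hden : 0 < ((R : ℝ) - 1) * g := mul_pos (by linarith) (by linarith)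
  have hA0 : 0 ≤ A := by
    rw [hA]; apply div_nonneg _ hden.le
    apply mul_nonneg (by positivity) (by linarith)
  have hAmul : A * (((R : ℝ) - 1) * g) = (n + R) * ℓ := by
    rw [hA]; exact div_mul_cancel₀ _ hden.ne'
  have hn22 : 22500 ≤ n := by
    have hR2 : 15 ^ 2 ≤ R ^ 2 := Nat.pow_le_pow_left hR 2
    omega
  have hn22r : (22500 : ℝ) ≤ n := by exact_mod_cast hn22
  have hRn : (R : ℝ) ≤ n / 1500 := by
    have h1 : (R : ℝ) * 15 ≤ R * R := mul_le_mul_of_nonneg_left hRr (by positivity)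
    have h2 : (R : ℝ) ^ 2 = R * R := sq _
    rw [h2] at hnr
    linarith
  set h := ⌈(1 + A) / R⌉₊ with hh
  have hR0 : (0 : ℝ) < R := by linarith
  have hh1 : 1 ≤ h := Nat.one_le_ceil_iff.mpr (by positivity)
  have hle1 : 1 + A ≤ R * h := by
    have := Nat.le_ceil ((1 + A) / R)
    rw [div_le_iff₀ hR0] at this
    rw [hh]; linarith
  have hle2 : (R : ℝ) * h < 1 + A + R := by
    have h1 : (h : ℝ) < (1 + A) / R + 1 := Nat.ceil_lt_add_one (by positivity)
    calc (R : ℝ) * h < R * ((1 + A) / R + 1) := mul_lt_mul_of_pos_left h1 hR0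
      _ = 1 + A + R := by field_simp
  -- an upper bound for A
  have hAle : A ≤ 0.0532 * n := by
    rw [hA, div_le_iff₀ hden]
    have h1 : (14 : ℝ) ≤ (R : ℝ) - 1 := by linarith
    have h2 : (R : ℝ) ≤ 0.01 * n := by linarith
    have h3 : 0.0532 * (n : ℝ) * (14 * 0.693147) ≤ 0.0532 * n * (((R : ℝ) - 1) * g) := by
      apply mul_le_mul_of_nonneg_left _ (by positivity)
      exact mul_le_mul h1 hg1.le (by norm_num) (by linarith)
    have h4 : ((n : ℝ) + R) * ℓ ≤ (1.01 * n) * 0.4813 :=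
      mul_le_mul (by linarith) hℓ2.le (by linarith) (by positivity)
    have h5 : (0 : ℝ) ≤ n := Nat.cast_nonneg n
    linarith
  set s := R * h with hs
  have hsr : (s : ℝ) = R * h := by rw [hs]; push_cast; ring
  -- choice of p
  have hkr1 : φ ^ (n - 2) ≤ (k : ℝ) := by
    have h1 := le_fib_add_two (n - 2)
    rw [show n - 2 + 2 = n by omega] at h1
    have h2 : (Nat.fib n : ℝ) ≤ k := by exact_mod_cast hk1.le
    exact h1.trans h2
  have hkr2 : (k : ℝ) ≤ φ ^ n := by
    have h2 : (k : ℝ) ≤ (Nat.fib (n + 1) : ℝ) := by exact_mod_cast hk2.le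
    exact h2.trans (fib_succ_le n)
  set p := Nat.findGreatest (fun p => 2 ^ (s + 1) * Nat.fib p ≤ k) (n + 1) with hp
  have hp0 : 2 ^ (s + 1) * Nat.fib p ≤ k := by
    have := Nat.findGreatest_spec (P := fun p => 2 ^ (s + 1) * Nat.fib p ≤ k) (m := 0) (n := n + 1)
      (Nat.zero_le _) (by simp)
    exact this
  have hp1 : k < 2 ^ (s + 1) * Nat.fib (p + 1) := by
    rcases Nat.lt_or_ge p (n + 1) with h1 | h1
    · by_contra hcon
      push Not at hcon
      have h2 := Nat.le_findGreatest (P := fun p => 2 ^ (s + 1) * Nat.fib p ≤ k) (n := n + 1)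
        (m := p + 1) (by omega) hcon
      omega
    · have h2 : Nat.fib (n + 1) ≤ Nat.fib (p + 1) := Nat.fib_mono (by omega)
      have h3 : Nat.fib (p + 1) ≤ 2 ^ (s + 1) * Nat.fib (p + 1) :=
        Nat.le_mul_of_pos_left _ (by positivity)
      omega
  -- lower bound for p
  have hplow : ((n : ℝ) - 2) * ℓ ≤ (s + 1) * g + p * ℓ := by
    have h1 : (k : ℝ) ≤ 2 ^ (s + 1) * φ ^ p := by
      have h2 : (k : ℝ) ≤ ((2 ^ (s + 1) * Nat.fib (p + 1) : ℕ) : ℝ) := by exact_mod_cast hp1.le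
      push_cast at h2
      exact h2.trans (mul_le_mul_of_nonneg_left (fib_succ_le p) (by positivity))
    have h2 := Real.log_le_log (by positivity) (hkr1.trans h1)
    rw [Real.log_mul (by positivity) (by positivity), Real.log_pow, Real.log_pow, Real.log_pow] at h2
    have h3 : 2 ≤ n := by omega
    push_cast [Nat.cast_sub h3] at h2
    linarith
  have hpbig : 0.9 * (n : ℝ) ≤ p := by
    -- (s+1) g ≤ (2 + A + R) g
    have h1 : ((s : ℝ) + 1) * g ≤ (2 + A + R) * g := by
      apply mul_le_mul_of_nonneg_right _ (by linarith)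
      rw [hsr]; linarith
    have h2 : (2 + A + R) * g ≤ (2 + 0.0532 * n + R) * 0.693148 :=
      mul_le_mul (by linarith) hg2.le (by linarith) (by positivity)
    have h3 : (R : ℝ) ≤ 0.0007 * n := by linarith
    have h4 : (2 : ℝ) ≤ 0.0001 * n := by linarith
    have h5 : (p : ℝ) * ℓ ≤ p * 0.4813 := mul_le_mul_of_nonneg_left hℓ2.le (Nat.cast_nonneg p)
    have h6 : ((n : ℝ) - 2) * 0.481 ≤ ((n : ℝ) - 2) * ℓ :=
      mul_le_mul_of_nonneg_left hℓ1.le (by linarith)
    linarith
  have hp2 : 2 ≤ p := by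
    have : (2 : ℝ) ≤ p := by linarith
    exact_mod_cast this
  -- upper bound for p
  have hpup : ((p : ℝ) - 2) * ℓ + (s + 1) * g ≤ n * ℓ := by
    have h1 : 2 ^ (s + 1) * φ ^ (p - 2) ≤ φ ^ n := by
      have h2 : ((2 ^ (s + 1) * Nat.fib p : ℕ) : ℝ) ≤ (k : ℝ) := by exact_mod_cast hp0
      push_cast at h2
      have h3 := le_fib_add_two (p - 2)
      rw [show p - 2 + 2 = p by omega] at h3
      exact (mul_le_mul_of_nonneg_left h3 (by positivity)).trans (h2.trans hkr2)
    have h2 := Real.log_le_log (by positivity) h1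
    rw [Real.log_mul (by positivity) (by positivity), Real.log_pow, Real.log_pow, Real.log_pow] at h2
    push_cast [Nat.cast_sub hp2] at h2
    linarith
  -- choice of b
  set b := (p - 6) / (R - 1) with hb
  have hb1 : (R - 1) * b ≤ p - 6 := Nat.mul_div_le _ _
  have hb2 : p - 6 < (R - 1) * b + (R - 1) := by
    have := Nat.lt_mul_div_succ (p - 6) (show 0 < R - 1 by omega)
    rw [Nat.mul_add, ← hb] at this
    omega
  have hbig : 2 * R + 2 ≤ b := by
    rw [hb, Nat.le_div_iff_mul_le (by omega)]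
    have h1 : ((2 * R + 2) * (R - 1) + 6 : ℕ) ≤ p := by
      have h2 : (((2 * R + 2) * (R - 1) + 6 : ℕ) : ℝ) ≤ p := by
        push_cast [Nat.cast_sub (show 1 ≤ R by omega)]
        nlinarith
      exact_mod_cast h2
    omega
  have hp6 : 6 ≤ p := by
    have : (6 : ℝ) ≤ p := by linarith
    exact_mod_cast this
  have hmain := sharp_rep R h b p k hR hh1 ?_ ?_ (by omega) (by omega) (by omega) ?_ hp0 hp1
  · -- conclusion
    have hmr : (e k : ℝ) ≤ p + R * 2 ^ (R + 1) + 2 * s := by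
      have := hmain
      rw [← hs] at this
      exact_mod_cast this
    have hcs : Real.log (φ ^ 2 / 2) = 2 * ℓ - g := cstar_eq
    rw [hcs]
    -- p + 2 s ≤ n + 2 + s (2ℓ - g)/ℓ
    have hℓ0 : 0 < ℓ := by linarith
    have h1 : ((p : ℝ) + 2 * s) * ℓ ≤ (n + 2) * ℓ + s * (2 * ℓ - g) := by linarith
    have h2 : (s : ℝ) * (2 * ℓ - g) ≤ (1 + A + R) * (2 * ℓ - g) :=
      mul_le_mul_of_nonneg_right (by rw [hsr]; exact hle2.le) (by linarith)
    have h3 : A * (2 * ℓ - g) = ((2 * ℓ - g) * (n + R) / ((R - 1) * g)) * ℓ := by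
      rw [hA]; field_simp
    have h4 : (1 + (R : ℝ)) * (2 * ℓ - g) ≤ (1 + R) * ℓ :=
      mul_le_mul_of_nonneg_left (by linarith) (by positivity)
    have h5 : (2 * ℓ - g) * (n + R) / ((R - 1) * g)
        ≤ (2 * ℓ - g) * n / ((R - 1) * g) + 1 := by
      have h6 : (2 * ℓ - g) * (n + R) / ((R - 1) * g)
          = (2 * ℓ - g) * n / ((R - 1) * g) + (2 * ℓ - g) * R / ((R - 1) * g) := by ring
      have h7 : (2 * ℓ - g) * R / ((R - 1) * g) ≤ 1 := by
        rw [div_le_one hden]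
        nlinarith
      linarith
    have h8 : ((p : ℝ) + 2 * s) * ℓ ≤
        ((n : ℝ) + 2 + ((2 * ℓ - g) * n / ((R - 1) * g) + 1) + (1 + R)) * ℓ := by
      have h9 : ((2 * ℓ - g) * (n + R) / ((R - 1) * g)) * ℓ
        ≤ ((2 * ℓ - g) * n / ((R - 1) * g) + 1) * ℓ := mul_le_mul_of_nonneg_right h5 hℓ0.le
      linarith
    have h10 := le_of_mul_le_mul_right h8 hℓ0
    linarith
  · -- fib (b+2) ≤ 2^(s-1)
    rw [← hs]
    have h1 : (Nat.fib (b + 2) : ℝ) ≤ 2 ^ (s - 1) := by
      refine (fib_succ_le (b + 1)).trans ?_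
      rw [← Real.log_le_log_iff (by positivity) (by positivity), Real.log_pow, Real.log_pow]
      have hs1 : 1 ≤ s := by
        rw [hs]; exact Nat.one_le_iff_ne_zero.mpr (by positivity)
      push_cast [Nat.cast_sub hs1]
      -- (b+1)(R-1) ≤ p - 6 + R - 1
      have h2 : ((b : ℝ) + 1) * (R - 1) ≤ p + R := by
        have : (R - 1) * b + (R - 1) ≤ p + R := by omega
        have h3 : (((R - 1) * b + (R - 1) : ℕ) : ℝ) ≤ p + R := by exact_mod_cast this
        push_cast [Nat.cast_sub (show 1 ≤ R by omega)] at h3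
        linarith
      have h4 : (p : ℝ) ≤ n := by
        have : ((p : ℝ) - 2) * ℓ + (s + 1) * g ≤ n * ℓ := hpup
        have hs1r : (1 : ℝ) ≤ s := by exact_mod_cast hs1
        have h5 : (1 + 1) * g ≤ ((s : ℝ) + 1) * g :=
          mul_le_mul_of_nonneg_right (by linarith) (by linarith)
        exact le_of_mul_le_mul_right (show (p : ℝ) * ℓ ≤ n * ℓ by linarith) (by linarith)
      have h5 : (((b : ℝ) + 1) * ℓ) * (R - 1) ≤ (((s : ℝ) - 1) * g) * (R - 1) := by
        have h6 : (((b : ℝ) + 1) * ℓ) * (R - 1) ≤ (n + R) * ℓ := by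
          have : (((b : ℝ) + 1) * (R - 1)) * ℓ ≤ (n + R) * ℓ :=
            mul_le_mul_of_nonneg_right (by linarith) (by linarith)
          linarith
        have h7 : (n + R) * ℓ ≤ (((s : ℝ) - 1) * g) * (R - 1) := by
          rw [← hAmul]
          have h8 : A ≤ (s : ℝ) - 1 := by rw [hsr]; linarith
          have h9 : A * (((R : ℝ) - 1) * g) ≤ ((s : ℝ) - 1) * (((R : ℝ) - 1) * g) :=
            mul_le_mul_of_nonneg_right h8 hden.le
          linarith
        exact h6.trans h7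
      exact le_of_mul_le_mul_right h5 (by linarith)
    exact_mod_cast h1
  · -- 2^R < fib (b+1)
    exact lt_of_lt_of_le (pow_two_lt_fib R) (Nat.fib_mono (by omega))
  · have : 3 * (R - 1) ≤ (R - 1) * b := by
      rw [Nat.mul_comm]; exact Nat.mul_le_mul_left _ (by omega)
    omega

end Pool.Agent.ElemSeq
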